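import Pool.Agent.Helper79.QC.Gauss

/-!
# The 2-adic criterion for the parity of the valuations
-/

set_option autoImplicit false

namespace Pool.Agent.Helper79.QC

open Finset Polynomial

section shift

/-- the shift of functions on `ℕ` -/
def shift : Module.End (ZMod 2) (ℕ → ZMod 2) where
  toFun f c := f (c + 1)
  map_add' _ _ := rfl
  map_smul' _ _ := rfl

theorem shift_apply (f : ℕ → ZMod 2) (c : ℕ) : shift f c = f (c + 1) := rfl

theorem shift_pow (f : ℕ → ZMod 2) (α c : ℕ) : (shift ^ α) f c = f (c + α) := by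
  induction α generalizing c with
  | zero => simp
  | succ α ih =>
    rw [pow_succ', Module.End.mul_apply, shift_apply, ih]
    congr 1
    ring

/-- the difference operator -/
noncomputable def dl : Module.End (ZMod 2) (ℕ → ZMod 2) := aeval shift (X - 1 : (ZMod 2)[X])

theorem dl_apply (f : ℕ → ZMod 2) (c : ℕ) : dl f c = f (c + 1) - f c := by
  rw [dl, map_sub, aeval_X, map_one, LinearMap.sub_apply, Module.End.one_apply, Pi.sub_apply,
    shift_apply]

theorem dl_pow_two_pow (f : ℕ → ZMod 2) (s c : ℕ) :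
    (dl ^ 2 ^ s) f c = f (c + 2 ^ s) - f c := by
  have h1 : (X - 1 : (ZMod 2)[X]) ^ 2 ^ s = X ^ 2 ^ s - 1 := by
    rw [sub_pow_char_pow, one_pow]
  rw [dl, ← map_pow, h1, map_sub, map_pow, aeval_X, map_one, LinearMap.sub_apply,
    Module.End.one_apply, Pi.sub_apply, shift_pow]

theorem shift_pow_eq (α B : ℕ) (hB : α < B) :
    shift ^ α = ∑ j ∈ range B, ((α.choose j : ℕ) : ZMod 2) • dl ^ j := by
  have h1 : (X : (ZMod 2)[X]) ^ α = ∑ j ∈ range B, ((α.choose j : ℕ) : ZMod 2) • (X - 1) ^ j := by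
    have h2 : (X : (ZMod 2)[X]) ^ α = ((X - 1) + 1) ^ α := by rw [sub_add_cancel]
    rw [h2, add_pow]
    have h3 : ∑ j ∈ range (α + 1), ((X - 1 : (ZMod 2)[X])) ^ j * 1 ^ (α - j) * (α.choose j : ℕ) =
        ∑ j ∈ range (α + 1), ((α.choose j : ℕ) : ZMod 2) • (X - 1) ^ j := by
      refine sum_congr rfl fun j _ => ?_
      rw [one_pow, mul_one, mul_comm, smul_eq_C_mul]
      congr 1
    rw [h3]
    refine sum_subset ?_ ?_
    · intro j hj
      rw [mem_range] at hj ⊢
      omega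
    · intro j _ hj
      rw [mem_range, not_lt] at hj
      rw [Nat.choose_eq_zero_of_lt (by omega), Nat.cast_zero, zero_smul]
  have h4 := congrArg (aeval shift) h1
  rw [map_pow, aeval_X, map_sum] at h4
  rw [h4]
  refine sum_congr rfl fun j _ => ?_
  rw [map_smul, map_pow]
  rfl

theorem dl_const (x : ZMod 2) : dl (fun _ => x) = 0 := by
  funext c
  rw [dl_apply]
  simp

theorem dl_pow_const {f : ℕ → ZMod 2} {x : ZMod 2} (hf : ∀ c, f c = x) {j : ℕ} (hj : 0 < j) :
    (dl ^ j) f = 0 := by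
  have h1 : f = fun _ => x := funext hf
  obtain ⟨i, rfl⟩ : ∃ i, j = i + 1 := ⟨j - 1, by omega⟩
  rw [h1, pow_succ, Module.End.mul_apply, dl_const, map_zero]

/-- The key lemma. -/
theorem binom_key {s : ℕ} {φ : ℕ → ZMod 2} (hφ : ∀ c, φ (c + 2 ^ s) = φ c + 1) {ι : Type*}
    [Fintype ι] (α : ι → ℕ) (hF : ∀ c, ∑ D, φ (c + α D) = 1)
    (hcrit : (∃ j < 2 ^ s, Odd (∑ D, (α D).choose j)) ∨ Even (∑ D, (α D).choose (2 ^ s))) :
    False := by
  classical
  obtain ⟨B, hB⟩ : ∃ B, (∀ D, α D < B) ∧ 2 ^ s < B := by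
    refine ⟨∑ D, α D + 2 ^ s + 1, fun D => ?_, by omega⟩
    have h1 := Finset.single_le_sum (f := α) (fun i _ => Nat.zero_le _) (Finset.mem_univ D)
    have h2 : 0 < 2 ^ s := by positivity
    omega
  let e : ℕ → ℕ := fun j => ∑ D, (α D).choose j
  -- the expansion
  have hexp : (fun _ => 1 : ℕ → ZMod 2) = ∑ j ∈ range B, ((e j : ℕ) : ZMod 2) • (dl ^ j) φ := by
    have h1 : (fun _ => 1 : ℕ → ZMod 2) = ∑ D, (shift ^ α D) φ := by
      funext c
      rw [Finset.sum_apply, Finset.sum_congr rfl fun D _ => shift_pow φ (α D) c]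
      exact (hF c).symm
    rw [h1]
    have h2 : ∀ D ∈ (Finset.univ : Finset ι), (shift ^ α D) φ =
        ∑ j ∈ range B, (((α D).choose j : ℕ) : ZMod 2) • (dl ^ j) φ := by
      intro D _
      rw [shift_pow_eq (α D) B (hB.1 D), LinearMap.sum_apply]
      rfl
    rw [Finset.sum_congr rfl h2, Finset.sum_comm]
    refine sum_congr rfl fun j _ => ?_
    rw [← Finset.sum_smul, ← Nat.cast_sum]
  have hone : ∀ c, (dl ^ 2 ^ s) φ c = 1 := by
    intro c
    rw [dl_pow_two_pow, hφ]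
    ring
  have hzero : ∀ j, 2 ^ s < j → (dl ^ j) φ = 0 := by
    intro j hj
    have h1 : j = (j - 2 ^ s) + 2 ^ s := by omega
    rw [h1, pow_add, Module.End.mul_apply]
    exact dl_pow_const hone (by omega)
  by_cases hex : ∃ j < 2 ^ s, Odd (e j)
  · -- the least one
    have hmin := Nat.find_spec hex
    set j0 := Nat.find hex with hj0
    have hlt : ∀ j < j0, ((e j : ℕ) : ZMod 2) = 0 := by
      intro j hj
      have h1 := Nat.find_min hex hj
      have h2 : ¬ Odd (e j) := fun h => h1 ⟨by omega, h⟩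
      rw [Nat.not_odd_iff_even] at h2
      exact (ZMod.natCast_eq_zero_iff _ _).2 h2.two_dvd
    have h1 := congrArg (dl ^ (2 ^ s - j0)) hexp
    rw [dl_pow_const (x := 1) (fun _ => rfl) (by omega), map_sum] at h1
    rw [Finset.sum_eq_single j0] at h1
    · rw [map_smul, ← Module.End.mul_apply, ← pow_add] at h1
      have h2 : 2 ^ s - j0 + j0 = 2 ^ s := by omega
      rw [h2, (ZMod.natCast_eq_one_iff_odd).2 hmin.2, one_smul] at h1
      have h3 := congrFun h1 0
      rw [hone] at h3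
      simp at h3
    · intro j _ hj
      rw [map_smul, ← Module.End.mul_apply, ← pow_add]
      rcases Nat.lt_or_ge j j0 with h | h
      · rw [hlt j h, zero_smul]
      · rw [hzero _ (by omega), smul_zero]
    · intro h
      exact absurd (mem_range.2 (by omega)) h
  · rcases hcrit with h | h
    · exact hex h
    · have h1 := congrFun hexp 0
      rw [Finset.sum_apply, Finset.sum_eq_zero] at h1
      · simp at h1
      · intro j _
        rcases lt_trichotomy j (2 ^ s) with hj | hj | hj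
        · have h2 : ¬ Odd (e j) := fun h => hex ⟨j, hj, h⟩
          rw [Nat.not_odd_iff_even] at h2
          rw [(ZMod.natCast_eq_zero_iff _ _).2 h2.two_dvd, zero_smul]
          rfl
        · have h2 : ((e j : ℕ) : ZMod 2) = 0 := by
            rw [hj]
            exact (ZMod.natCast_eq_zero_iff _ _).2 h.two_dvd
          rw [h2, zero_smul]
          rfl
        · rw [hzero j hj, smul_zero]
          rfl

end shift

section units

variable {r n : ℕ} [hr : Fact r.Prime]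

theorem isUnit_of_cast {k : ℕ} (hn : n = r ^ k) [NeZero n] (hrn : r ∣ n) {z : ZMod n}
    (hz : ZMod.castHom hrn (ZMod r) z ≠ 0) : IsUnit z := by
  have h1 : ((z.val : ℕ) : ZMod n) = z := ZMod.natCast_zmod_val z
  rw [← h1, ZMod.isUnit_iff_coprime]
  have h2 : ∀ m : ℕ, m = r ^ k → ¬ r ∣ z.val → z.val.Coprime m := by
    rintro m rfl h
    exact Nat.Coprime.pow_right k (Nat.coprime_comm.1 ((hr.out.coprime_iff_not_dvd).2 h))
  refine h2 n hn ?_
  intro h
  apply hz
  rw [← h1, map_natCast]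
  exact (ZMod.natCast_eq_zero_iff _ _).2 h

/-- the units whose reduction has odd order -/
def oddPart (hrn : r ∣ n) (t : ℕ) : Subgroup (ZMod n)ˣ :=
  ((powMonoidHom t : (ZMod r)ˣ →* (ZMod r)ˣ).comp (ZMod.unitsMap hrn)).ker

theorem mem_oddPart (hrn : r ∣ n) (t : ℕ) (x : (ZMod n)ˣ) :
    x ∈ oddPart hrn t ↔ (ZMod.unitsMap hrn x) ^ t = 1 := by
  rw [oddPart, MonoidHom.mem_ker]
  rfl

theorem card_oddPart {k : ℕ} (hn : n = r ^ k) [NeZero n] (hrn : r ∣ n) (hr2 : r ≠ 2) {t : ℕ}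
    (ht : Odd t) : Odd (Nat.card (oddPart hrn t)) := by
  rw [← Nat.not_even_iff_odd, even_iff_two_dvd]
  intro h
  have : Fact (Nat.Prime 2) := ⟨Nat.prime_two⟩
  obtain ⟨x, hx⟩ := exists_prime_orderOf_dvd_card' 2 h
  have hx2 : x ^ 2 = 1 := by rw [← hx]; exact pow_orderOf_eq_one x
  have hx1 : x ≠ 1 := by
    rintro rfl
    rw [orderOf_one] at hx
    omega
  apply hx1
  have h1 : ((x : (ZMod n)ˣ)) ^ 2 = 1 := by
    have := congrArg Subtype.val hx2
    simpa using this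
  have h2 := (mem_oddPart hrn t _).1 x.2
  -- the reduction is trivial
  have h3 : ZMod.unitsMap hrn (x : (ZMod n)ˣ) = 1 := by
    have h4 : (ZMod.unitsMap hrn (x : (ZMod n)ˣ)) ^ 2 = 1 := by rw [← map_pow, h1, map_one]
    have h5 : orderOf (ZMod.unitsMap hrn (x : (ZMod n)ˣ)) ∣ Nat.gcd 2 t :=
      Nat.dvd_gcd (orderOf_dvd_of_pow_eq_one h4) (orderOf_dvd_of_pow_eq_one h2)
    have h6 : Nat.gcd 2 t = 1 := by
      rw [← Nat.Coprime, Nat.coprime_two_left]
      exact ht
    rw [h6, Nat.dvd_one, orderOf_eq_one_iff] at h5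
    exact h5
  apply Subtype.ext
  apply Units.ext
  have h4 : (((x : (ZMod n)ˣ) : ZMod n) - 1) * (((x : (ZMod n)ˣ) : ZMod n) + 1) = 0 := by
    have h5 := congrArg (fun u : (ZMod n)ˣ => (u : ZMod n)) h1
    simp only [Units.val_pow_eq_pow_val, Units.val_one] at h5
    linear_combination h5
  have h5 : IsUnit (((x : (ZMod n)ˣ) : ZMod n) + 1) := by
    refine isUnit_of_cast hn hrn ?_
    have h6 : ZMod.castHom hrn (ZMod r) ((x : (ZMod n)ˣ) : ZMod n) = 1 := by
      have h7 := congrArg (fun u : (ZMod r)ˣ => (u : ZMod r)) h3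
      simpa [ZMod.unitsMap_def] using h7
    rw [map_add, map_one, h6]
    have : Fact (2 < r) := ⟨lt_of_le_of_ne hr.out.two_le (Ne.symm hr2)⟩
    intro h8
    apply ZMod.neg_one_ne_one (n := r)
    linear_combination -h8
  have h6 := (h5.mul_left_eq_zero).1 h4
  have h7 : ((x : (ZMod n)ˣ) : ZMod n) = 1 := by linear_combination h6
  simpa using h7

theorem exists_even_binom_aux {k s t : ℕ} (hn : n = r ^ k) (hk : 0 < k)
    (hst : r - 1 = 2 ^ (s + 1) * t) (ht : Odd t) {ι : Type*} [Fintype ι] (a : ι → ℤ)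
    (hsum : ∑ D, a D = 0) (g : (ZMod r)ˣ) (hg : orderOf g = r - 1) (α : ι → ℕ)
    (hα : ∀ D, ((a D : ℤ) : ZMod r) = (g : ZMod r) ^ α D)
    (hcrit : (∃ j < 2 ^ s, Odd (∑ D, (α D).choose j)) ∨ Even (∑ D, (α D).choose (2 ^ s)))
    (H : Subgroup (ZMod n)ˣ) (hH : Odd (Nat.card H)) :
    ∃ h : (ZMod n)ˣ, Even (∑ᶠ u : H, total n a (u * h) / n) := by
  classical
  have hrp : r.Prime := hr.out
  have : NeZero n := ⟨by rw [hn]; exact pow_ne_zero _ hrp.ne_zero⟩
  have h1 : 1 < n := by rw [hn]; exact Nat.one_lt_pow hk.ne' hrp.one_lt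
  have hr2 : r ≠ 2 := by
    rintro rfl
    have h2 : 0 < 2 ^ s := by positivity
    have h3 := ht.pos
    have h4 : 1 ≤ 2 ^ s * t := Nat.mul_pos h2 h3
    rw [pow_succ] at hst
    have h5 : 2 ^ s * 2 * t = 2 * (2 ^ s * t) := by ring
    omega
  have hrodd : Odd r := hrp.odd_of_ne_two hr2
  have hodd : Odd n := by rw [hn]; exact hrodd.pow
  have hrn : r ∣ n := hn ▸ dvd_pow_self r hk.ne'
  set π := ZMod.unitsMap hrn with hπ
  have hπval : ∀ x : (ZMod n)ˣ, ((π x : (ZMod r)ˣ) : ZMod r) =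
      ZMod.castHom hrn (ZMod r) (x : ZMod n) := fun x => rfl
  obtain ⟨G0, hG0⟩ := ZMod.unitsMap_surjective hrn g
  -- the units
  have hunit : ∀ D, IsUnit ((a D : ℤ) : ZMod n) := by
    intro D
    refine isUnit_of_cast hn hrn ?_
    rw [map_intCast, hα]
    exact pow_ne_zero _ g.ne_zero
  choose A hA using hunit
  have hπA : ∀ D, π (A D) = g ^ α D := by
    intro D
    apply Units.ext
    rw [hπval, hA, map_intCast, hα, Units.val_pow_eq_pow_val]
  set Hm := oddPart hrn t with hHm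
  have hmem : ∀ x, x ∈ Hm ↔ (π x) ^ t = 1 := mem_oddPart hrn t
  have hcard := card_oddPart hn hrn hr2 ht
  have : Fintype Hm := Fintype.ofFinite Hm
  rw [← hHm, Nat.card_eq_fintype_card] at hcard
  have hcard2 : ((Fintype.card Hm : ℕ) : ZMod 2) = 1 := (ZMod.natCast_eq_one_iff_odd).2 hcard
  have hn2 : ((n : ℕ) : ZMod 2) = 1 := (ZMod.natCast_eq_one_iff_odd).2 hodd
  -- the function `φ`
  let φ : ℕ → ZMod 2 := fun c => ∑ x : Hm, ((((G0 ^ c * (x : (ZMod n)ˣ) : (ZMod n)ˣ) :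
    ZMod n).val : ℕ) : ZMod 2)
  have htrans : ∀ (F : (ZMod n)ˣ → ZMod 2) (y : (ZMod n)ˣ), y ∈ Hm →
      ∑ x : Hm, F (y * (x : (ZMod n)ˣ)) = ∑ x : Hm, F (x : (ZMod n)ˣ) := by
    intro F y hy
    exact Fintype.sum_equiv (Equiv.mulLeft (⟨y, hy⟩ : Hm)) _ _ fun x => rfl
  have hnegmem : -G0 ^ 2 ^ s ∈ Hm := by
    rw [hmem]
    have h2 : π (-G0 ^ 2 ^ s) = - g ^ 2 ^ s := by
      apply Units.ext
      rw [hπval, Units.val_neg, map_neg, ← hπval, map_pow, hG0, Units.val_neg]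
    rw [h2, ht.neg_pow, ← pow_mul]
    have h3 : (g ^ (2 ^ s * t)) ^ 2 = 1 := by
      rw [← pow_mul, ← orderOf_dvd_iff_pow_eq_one, hg, hst]
      exact ⟨1, by ring⟩
    have h4 : g ^ (2 ^ s * t) ≠ 1 := by
      intro h
      have h5 := orderOf_dvd_of_pow_eq_one h
      rw [hg, hst] at h5
      have h6 : 0 < 2 ^ s * t := Nat.mul_pos (by positivity) ht.pos
      have h7 := Nat.le_of_dvd h6 h5
      rw [pow_succ] at h7
      have h8 : 2 ^ s * 2 * t = 2 * (2 ^ s * t) := by ring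
      omega
    have h5 : g ^ (2 ^ s * t) = -1 := by
      have h6 : (((g ^ (2 ^ s * t) : (ZMod r)ˣ) : ZMod r) - 1) *
          (((g ^ (2 ^ s * t) : (ZMod r)ˣ) : ZMod r) + 1) = 0 := by
        have h7 := congrArg (fun u : (ZMod r)ˣ => (u : ZMod r)) h3
        simp only [Units.val_pow_eq_pow_val, Units.val_one] at h7
        rw [Units.val_pow_eq_pow_val]
        linear_combination h7
      rcases mul_eq_zero.1 h6 with h7 | h7
      · exfalso
        apply h4
        apply Units.ext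
        rw [Units.val_one]
        linear_combination h7
      · apply Units.ext
        rw [Units.val_neg, Units.val_one]
        linear_combination h7
    rw [h5, neg_neg]
  have hφ : ∀ c, φ (c + 2 ^ s) = φ c + 1 := by
    intro c
    have h2 : φ (c + 2 ^ s) = ∑ x : Hm, ((((-(G0 ^ c * (x : (ZMod n)ˣ)) : (ZMod n)ˣ) :
        ZMod n).val : ℕ) : ZMod 2) := by
      rw [← htrans (fun y => ((((-(G0 ^ c * y) : (ZMod n)ˣ) : ZMod n).val : ℕ) : ZMod 2))
        (-G0 ^ 2 ^ s) hnegmem]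
      refine Finset.sum_congr rfl fun x _ => ?_
      congr 3
      rw [pow_add, neg_mul, mul_neg, neg_neg, mul_assoc]
    rw [h2]
    have h3 : ∀ x : Hm, ((((-(G0 ^ c * (x : (ZMod n)ˣ)) : (ZMod n)ˣ) : ZMod n).val : ℕ) : ZMod 2) =
        1 + ((((G0 ^ c * (x : (ZMod n)ˣ) : (ZMod n)ˣ) : ZMod n).val : ℕ) : ZMod 2) := by
      intro x
      rw [val_neg h1, Nat.cast_sub (ZMod.val_lt _).le, hn2]
      have : ∀ z : ZMod 2, 1 - z = 1 + z := by decide
      exact this _
    rw [Finset.sum_congr rfl fun x _ => h3 x, Finset.sum_add_distrib, Finset.sum_const,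
      Finset.card_univ, nsmul_eq_mul, mul_one, hcard2, add_comm]
  -- the numbers `N`
  let N : (ZMod n)ˣ → ℕ := fun g => total n a g / n
  have hN : ∀ g, n * N g = total n a g := fun g => Nat.mul_div_cancel' (dvd_total hsum g)
  have hN2 : ∀ g, (N g : ZMod 2) = ∑ D, ((((g * A D : (ZMod n)ˣ) : ZMod n).val : ℕ) : ZMod 2) := by
    intro g
    have h2 : ((n * N g : ℕ) : ZMod 2) = N g := by
      rw [Nat.cast_mul, hn2, one_mul]
    rw [← h2, hN, total, Nat.cast_sum]
    refine Finset.sum_congr rfl fun D _ => ?_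
    rw [Units.val_mul, hA]
  have hsumN : ∀ c, ∑ x : Hm, (N (G0 ^ c * (x : (ZMod n)ˣ)) : ZMod 2) = ∑ D, φ (c + α D) := by
    intro c
    rw [Finset.sum_congr rfl fun x _ => hN2 _, Finset.sum_comm]
    refine Finset.sum_congr rfl fun D _ => ?_
    have hy : A D * (G0 ^ α D)⁻¹ ∈ Hm := by
      rw [hmem, map_mul, map_inv, map_pow, hG0, hπA, mul_inv_cancel, one_pow]
    have h2 := htrans (fun y => ((((G0 ^ (c + α D) * y : (ZMod n)ˣ) : ZMod n).val : ℕ) : ZMod 2))
      _ hy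
    change _ = ∑ x : Hm, ((((G0 ^ (c + α D) * (x : (ZMod n)ˣ) : (ZMod n)ˣ) : ZMod n).val : ℕ) :
      ZMod 2)
    rw [← h2]
    refine Finset.sum_congr rfl fun x _ => ?_
    congr 3
    rw [pow_add]
    have h3 : G0 ^ α D * (A D * (G0 ^ α D)⁻¹ * (x : (ZMod n)ˣ)) = (x : (ZMod n)ˣ) * A D := by
      rw [mul_comm (A D), mul_assoc, mul_inv_cancel_left, mul_comm]
    rw [mul_assoc (G0 ^ c) (G0 ^ α D), h3, mul_assoc]
  -- the double count
  by_contra hcon
  push Not at hcon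
  have : Fintype H := Fintype.ofFinite H
  have hH2 : ((Fintype.card H : ℕ) : ZMod 2) = 1 := by
    rw [Nat.card_eq_fintype_card] at hH
    exact (ZMod.natCast_eq_one_iff_odd).2 hH
  have hHle : ∀ u : H, (u : (ZMod n)ˣ) ∈ Hm := by
    intro u
    rw [hmem]
    have h2 : (π (u : (ZMod n)ˣ)) ^ Nat.card H = 1 := by
      rw [← map_pow]
      have h3 : (u : (ZMod n)ˣ) ^ Nat.card H = 1 := by
        have h4 : u ^ Nat.card H = 1 := pow_card_eq_one'
        have h5 := congrArg Subtype.val h4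
        rwa [Subgroup.coe_pow, Subgroup.coe_one] at h5
      rw [h3, map_one]
    have h3 : (π (u : (ZMod n)ˣ)) ^ (2 ^ (s + 1) * t) = 1 := by
      rw [← hst]
      exact ZMod.units_pow_card_sub_one_eq_one r _
    have h4 : orderOf (π (u : (ZMod n)ˣ)) ∣ 2 ^ (s + 1) * t := orderOf_dvd_of_pow_eq_one h3
    have h5 : Nat.Coprime (orderOf (π (u : (ZMod n)ˣ))) (2 ^ (s + 1)) := by
      refine Nat.Coprime.pow_right _ ?_
      rw [Nat.coprime_two_right]
      exact hH.of_dvd_nat (orderOf_dvd_of_pow_eq_one h2)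
    exact orderOf_dvd_iff_pow_eq_one.1 (h5.dvd_of_dvd_mul_left h4)
  have hsub : ∀ h : (ZMod n)ˣ, ∑ u : H, (N ((u : (ZMod n)ˣ) * h) : ZMod 2) = 1 := by
    intro h
    have h2 : ¬ Even (∑ᶠ u : H, N ((u : (ZMod n)ˣ) * h)) := hcon h
    rw [Nat.not_even_iff_odd, finsum_eq_sum_of_fintype] at h2
    rw [← Nat.cast_sum]
    exact (ZMod.natCast_eq_one_iff_odd).2 h2
  refine binom_key hφ α (fun c => ?_) hcrit
  rw [← hsumN c]
  have h2 : ∑ u : H, ∑ x : Hm, (N ((u : (ZMod n)ˣ) * (G0 ^ c * (x : (ZMod n)ˣ))) : ZMod 2) =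
      ∑ x : Hm, (N (G0 ^ c * (x : (ZMod n)ˣ)) : ZMod 2) := by
    have h3 : ∀ u : H, ∑ x : Hm, (N ((u : (ZMod n)ˣ) * (G0 ^ c * (x : (ZMod n)ˣ))) : ZMod 2) =
        ∑ x : Hm, (N (G0 ^ c * (x : (ZMod n)ˣ)) : ZMod 2) := by
      intro u
      rw [← htrans (fun y => (N (G0 ^ c * y) : ZMod 2)) u (hHle u)]
      refine Finset.sum_congr rfl fun x _ => ?_
      rw [mul_left_comm]
    rw [Finset.sum_congr rfl fun u _ => h3 u, Finset.sum_const, Finset.card_univ, nsmul_eq_mul,
      hH2, one_mul]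
  rw [← h2, Finset.sum_comm, Finset.sum_congr rfl fun x _ => hsub _, Finset.sum_const,
    Finset.card_univ, nsmul_eq_mul, mul_one, hcard2]

/-- **The 2-adic criterion.**  Let `r - 1 = 2 ^ (s + 1) t` with `t` odd, `g` a generator of the
units modulo the prime `r`, and `a D = g ^ α D` modulo `r` for finitely many integers `a D` with
sum zero.  If `∑ D, C(α D, j)` is odd for some `j < 2 ^ s` or `∑ D, C(α D, 2 ^ s)` is even, then
for every subgroup `H` of odd order of the units modulo `r ^ k` there is a unit `h` such that the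
sum over `H` of the integers `∑ D, ⟨u h a_D / r ^ k⟩` is even. -/
theorem exists_even_binom {r k s t : ℕ} [Fact r.Prime] (hk : 0 < k)
    (hst : r - 1 = 2 ^ (s + 1) * t) (ht : Odd t) {ι : Type*} [Fintype ι] (a : ι → ℤ)
    (hsum : ∑ D, a D = 0) (g : (ZMod r)ˣ) (hg : orderOf g = r - 1) (α : ι → ℕ)
    (hα : ∀ D, ((a D : ℤ) : ZMod r) = (g : ZMod r) ^ α D)
    (hcrit : (∃ j < 2 ^ s, Odd (∑ D, (α D).choose j)) ∨ Even (∑ D, (α D).choose (2 ^ s)))
    (H : Subgroup (ZMod (r ^ k))ˣ) (hH : Odd (Nat.card H)) :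
    ∃ h : (ZMod (r ^ k))ˣ, Even (∑ᶠ u : H, total (r ^ k) a (u * h) / r ^ k) :=
  exists_even_binom_aux rfl hk hst ht a hsum g hg α hα hcrit H hH

end units

end Pool.Agent.Helper79.QC
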