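import Pool.Agent.Helper79.QC.Gauss

/-!
# Block S-b of QUADRILATERAL COVERS: digit sums and sums of residues
-/

set_option autoImplicit false

namespace Pool.Agent.Helper79.QC

open Finset

theorem rot_aux {P Q a : ℕ} (ha : a < P * Q - 1) : a / Q + P * (a % Q) < P * Q - 1 := by
  rcases Nat.eq_zero_or_pos Q with rfl | hQ
  · simp at ha
  rcases Nat.eq_zero_or_pos P with rfl | hP
  · simp at ha
  have h1 := Nat.div_add_mod a Q
  have h2 := Nat.mod_lt a hQ
  set w := a / Q with hw
  set u := a % Q with hu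
  have h3 : w < P := by
    rw [hw, Nat.div_lt_iff_lt_mul hQ]
    omega
  have h4 : 1 ≤ P * Q := Nat.mul_pos hP hQ
  rcases Nat.lt_or_ge (u + 1) Q with h5 | h5
  · have h6 : P * (u + 1 + 1) ≤ P * Q := Nat.mul_le_mul_left P h5
    have h7 : P * (u + 1 + 1) = P * u + 2 * P := by ring
    omega
  · have h6 : u + 1 = Q := by omega
    have h7 : Q * (w + 1) < Q * P := by
      have : Q * (w + 1) = Q * w + Q := by ring
      have h8 : Q * P = P * Q := mul_comm _ _
      omega
    have h8 : w + 1 < P := lt_of_mul_lt_mul_left h7 (Nat.zero_le _)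
    have h9 : P * Q = P * u + P := by rw [← h6]; ring
    omega

theorem rot {p f a j : ℕ} (ha : a < p ^ f - 1) (hj : j ≤ f) :
    p ^ j * a % (p ^ f - 1) + (p ^ f - 1) * (a / p ^ (f - j)) = p ^ j * a := by
  have hpq : p ^ j * p ^ (f - j) = p ^ f := by rw [← pow_add, Nat.add_sub_cancel' hj]
  have h1 := rot_aux (P := p ^ j) (Q := p ^ (f - j)) (a := a) (by rw [hpq]; exact ha)
  have h2 := Nat.div_add_mod a (p ^ (f - j))
  rw [hpq] at h1
  have h3 : p ^ j * a = (p ^ f - 1) * (a / p ^ (f - j)) +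
      (a / p ^ (f - j) + p ^ j * (a % p ^ (f - j))) := by
    conv_lhs => rw [← h2]
    have h4 : 1 ≤ p ^ f := by omega
    have h5 : p ^ f = (p ^ f - 1) + 1 := by omega
    calc p ^ j * (p ^ (f - j) * (a / p ^ (f - j)) + a % p ^ (f - j))
        = (p ^ j * p ^ (f - j)) * (a / p ^ (f - j)) + p ^ j * (a % p ^ (f - j)) := by ring
      _ = ((p ^ f - 1) + 1) * (a / p ^ (f - j)) + p ^ j * (a % p ^ (f - j)) := by
        rw [hpq, ← h5]
      _ = _ := by ring
  rw [h3, Nat.mul_add_mod, Nat.mod_eq_of_lt h1]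
  ring

theorem sum_div {p f a : ℕ} (hp : p.Prime) (ha : a < p ^ f) :
    (p - 1) * ∑ j ∈ range f, a / p ^ (f - j) + (Nat.digits p a).sum = a := by
  have h1 : ∑ j ∈ range f, a / p ^ (f - j) = ∑ i ∈ range f, a / p ^ (i + 1) := by
    rw [← Finset.sum_range_reflect]
    refine Finset.sum_congr rfl fun j hj => ?_
    have := mem_range.1 hj
    congr 2
    omega
  have h2 : ∑ i ∈ range f, a / p ^ (i + 1) = ∑ i ∈ range (Nat.log p a).succ, a / p ^ i.succ := by
    rcases Nat.eq_zero_or_pos a with rfl | hpos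
    · simp
    · symm
      refine Finset.sum_subset ?_ ?_
      · intro i hi
        have h3 := mem_range.1 hi
        have h4 : Nat.log p a < f := Nat.log_lt_of_lt_pow hpos.ne' ha
        refine mem_range.2 ?_
        omega
      · intro i _ hi
        have h3 : (Nat.log p a).succ ≤ i := by
          by_contra h
          exact hi (mem_range.2 (not_le.1 h))
        refine Nat.div_eq_of_lt ?_
        refine lt_of_lt_of_le (Nat.lt_pow_succ_log_self hp.one_lt a) ?_
        exact Nat.pow_le_pow_right hp.pos (by omega)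
  rw [h1, h2, Nat.sub_one_mul_sum_log_div_pow_eq_sub_sum_digits]
  exact Nat.sub_add_cancel (Nat.digit_sum_le p a)

theorem sum_rot {p f a : ℕ} (hp : p.Prime) (ha : a < p ^ f - 1) :
    (p - 1) * ∑ j ∈ range f, p ^ j * a % (p ^ f - 1) = (p ^ f - 1) * (Nat.digits p a).sum := by
  have h1 : ∑ j ∈ range f, p ^ j * a % (p ^ f - 1) +
      (p ^ f - 1) * ∑ j ∈ range f, a / p ^ (f - j) = (∑ j ∈ range f, p ^ j) * a := by
    rw [Finset.mul_sum, ← Finset.sum_add_distrib, Finset.sum_mul]
    exact Finset.sum_congr rfl fun j hj => rot ha (mem_range.1 hj).le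
  have h2 := sum_div hp (lt_of_lt_of_le ha (Nat.sub_le _ _))
  have h3 : (p - 1) * ∑ j ∈ range f, p ^ j = p ^ f - 1 := by
    have h4 := geom_sum_mul_add (R := ℕ) (p - 1) f
    have h5 : p - 1 + 1 = p := Nat.sub_add_cancel hp.one_le
    rw [h5] at h4
    rw [mul_comm]
    omega
  have h4 : (p - 1) * ∑ j ∈ range f, p ^ j * a % (p ^ f - 1) +
      (p ^ f - 1) * ((p - 1) * ∑ j ∈ range f, a / p ^ (f - j)) =
      (p ^ f - 1) * ((p - 1) * ∑ j ∈ range f, a / p ^ (f - j) + (Nat.digits p a).sum) := by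
    rw [h2]
    calc (p - 1) * ∑ j ∈ range f, p ^ j * a % (p ^ f - 1) +
          (p ^ f - 1) * ((p - 1) * ∑ j ∈ range f, a / p ^ (f - j))
        = (p - 1) * (∑ j ∈ range f, p ^ j * a % (p ^ f - 1) +
          (p ^ f - 1) * ∑ j ∈ range f, a / p ^ (f - j)) := by ring
      _ = ((p - 1) * ∑ j ∈ range f, p ^ j) * a := by rw [h1]; ring
      _ = _ := by rw [h3]
  rw [mul_add] at h4
  omega

/-- The digit sum of `((p ^ f - 1) / n) u` in terms of the residues of `p ^ j u` modulo `n`. -/
theorem digit_sum {p f n u : ℕ} (hp : p.Prime) (hf : 0 < f) (hn : n ∣ p ^ f - 1) (hu : u < n) :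
    n * (Nat.digits p ((p ^ f - 1) / n * u)).sum = (p - 1) * ∑ j ∈ range f, p ^ j * u % n := by
  obtain ⟨M, hM⟩ := hn
  have hn0 : 0 < n := by omega
  have hN : 0 < p ^ f - 1 := by
    have : 1 < p ^ f := Nat.one_lt_pow hf.ne' hp.one_lt
    omega
  have hM0 : 0 < M := by
    rcases Nat.eq_zero_or_pos M with rfl | h
    · rw [hM] at hN
      simp at hN
    · exact h
  have hdiv : (p ^ f - 1) / n = M := by rw [hM, Nat.mul_div_cancel_left _ hn0]
  rw [hdiv]
  have ha : M * u < p ^ f - 1 := by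
    rw [hM, mul_comm n M]
    exact Nat.mul_lt_mul_of_pos_left hu hM0
  have h1 := sum_rot hp ha
  have h2 : ∑ j ∈ range f, p ^ j * (M * u) % (p ^ f - 1) = M * ∑ j ∈ range f, p ^ j * u % n := by
    rw [Finset.mul_sum]
    refine Finset.sum_congr rfl fun j _ => ?_
    rw [hM, mul_comm n M, mul_left_comm, Nat.mul_mod_mul_left]
  rw [h2] at h1
  refine Nat.eq_of_mul_eq_mul_left hM0 ?_
  calc M * (n * (Nat.digits p (M * u)).sum) = n * M * (Nat.digits p (M * u)).sum := by ring
    _ = (p ^ f - 1) * (Nat.digits p (M * u)).sum := by rw [← hM]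
    _ = (p - 1) * (M * ∑ j ∈ range f, p ^ j * u % n) := h1.symm
    _ = _ := by ring

theorem val_pow_mul {n : ℕ} [NeZero n] (p j : ℕ) (x : ZMod n) :
    p ^ j * x.val % n = ((p : ZMod n) ^ j * x).val := by
  rw [← ZMod.val_natCast]
  congr 1
  push_cast
  rw [ZMod.natCast_zmod_val]

/-- sums over a cyclic group -/
theorem finsum_zpowers {G : Type*} [Group G] [Finite G] {M : Type*} [AddCommMonoid M] (u : G)
    (F : G → M) : ∑ᶠ x : Subgroup.zpowers u, F x = ∑ j ∈ range (orderOf u), F (u ^ j) := by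
  classical
  have : Fintype (Subgroup.zpowers u) := Fintype.ofFinite _
  rw [finsum_eq_sum_of_fintype, ← Fin.sum_univ_eq_sum_range (fun j => F (u ^ j))]
  refine (Fintype.sum_equiv (finEquivZPowers (isOfFinOrder_of_finite u)) _ _ fun j => ?_).symm
  rw [finEquivZPowers_apply]

/-- The sum of the digit sums of the five (or any number of) exponents. -/
theorem digit_total {p f n : ℕ} [NeZero n] (hp : p.Prime) (u : (ZMod n)ˣ)
    (hu : (u : ZMod n) = p) (hf : f = orderOf u) {ι : Type*} [Fintype ι] {a : ι → ℤ}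
    (hsum : ∑ D, a D = 0) (h : (ZMod n)ˣ) :
    ∑ D, (Nat.digits p ((p ^ f - 1) / n * ((h : ZMod n) * (a D : ZMod n)).val)).sum =
      (p - 1) * ∑ᶠ x : Subgroup.zpowers u, total n a (x * h) / n := by
  have hn0 : 0 < n := Nat.pos_of_ne_zero (NeZero.ne n)
  have hf0 : 0 < f := by rw [hf]; exact orderOf_pos u
  have hpf : 1 ≤ p ^ f := Nat.one_le_pow _ _ hp.pos
  have hdvd : n ∣ p ^ f - 1 := by
    rw [← ZMod.natCast_eq_zero_iff, Nat.cast_sub hpf, Nat.cast_pow, ← hu, hf,
      ← Units.val_pow_eq_pow_val, pow_orderOf_eq_one]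
    simp
  refine Nat.eq_of_mul_eq_mul_left hn0 ?_
  rw [finsum_zpowers u (fun x => total n a (x * h) / n), Finset.mul_sum]
  calc ∑ D, n * (Nat.digits p ((p ^ f - 1) / n * ((h : ZMod n) * (a D : ZMod n)).val)).sum
      = ∑ D, (p - 1) * ∑ j ∈ range f, ((p : ZMod n) ^ j * ((h : ZMod n) * (a D : ZMod n))).val := by
        refine Finset.sum_congr rfl fun D _ => ?_
        rw [digit_sum hp hf0 hdvd (ZMod.val_lt _)]
        congr 1
        exact Finset.sum_congr rfl fun j _ => val_pow_mul p j _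
    _ = (p - 1) * ∑ j ∈ range f, total n a (u ^ j * h) := by
        rw [← Finset.mul_sum, Finset.sum_comm]
        congr 1
        refine Finset.sum_congr rfl fun j _ => ?_
        rw [total]
        refine Finset.sum_congr rfl fun D _ => ?_
        rw [Units.val_mul, Units.val_pow_eq_pow_val, hu, mul_assoc]
    _ = (p - 1) * ∑ j ∈ range f, n * (total n a (u ^ j * h) / n) := by
        congr 1
        refine Finset.sum_congr rfl fun j _ => ?_
        rw [Nat.mul_div_cancel' (dvd_total hsum _)]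
    _ = _ := by
        rw [← Finset.mul_sum, hf]
        ring

end Pool.Agent.Helper79.QC
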