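import Mathlib

/-!
# Block G of QUADRILATERAL COVERS: Gauss's lemma and the parity of the valuations
-/

set_option autoImplicit false

namespace Pool.Agent.Helper79.QC

open Finset

/-- The units of `ZMod n` in the lower half. -/
def half (n : ℕ) [NeZero n] : Finset (ZMod n)ˣ :=
  univ.filter fun g => 2 * (g : ZMod n).val < n

section half

variable {n : ℕ} [NeZero n]

theorem mem_half {g : (ZMod n)ˣ} : g ∈ half n ↔ 2 * (g : ZMod n).val < n := by
  simp [half]

/-- `g` or `-g`, in the lower half -/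
def red (g : (ZMod n)ˣ) : (ZMod n)ˣ := if g ∈ half n then g else -g

theorem val_neg (h1 : 1 < n) (g : (ZMod n)ˣ) :
    ((-g : (ZMod n)ˣ) : ZMod n).val = n - (g : ZMod n).val := by
  have : Fact (1 < n) := ⟨h1⟩
  rw [Units.val_neg, ZMod.neg_val, if_neg g.ne_zero]

theorem neg_mem_half (h1 : 1 < n) (hn : Odd n) {g : (ZMod n)ˣ} :
    -g ∈ half n ↔ g ∉ half n := by
  rw [mem_half, mem_half, val_neg h1]
  have h2 := ZMod.val_lt (g : ZMod n)
  obtain ⟨k, hk⟩ := hn
  omega

theorem red_mem (h1 : 1 < n) (hn : Odd n) (g : (ZMod n)ˣ) : red g ∈ half n := by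
  unfold red
  split_ifs with h
  · exact h
  · exact (neg_mem_half h1 hn).2 h

theorem red_of_mem {g : (ZMod n)ˣ} (h : g ∈ half n) : red g = g := if_pos h

theorem red_neg (h1 : 1 < n) (hn : Odd n) (g : (ZMod n)ˣ) : red (-g) = red g := by
  unfold red
  by_cases h : g ∈ half n
  · rw [if_pos h, if_neg, neg_neg]
    rw [neg_mem_half h1 hn, not_not]
    exact h
  · rw [if_neg h, if_pos ((neg_mem_half h1 hn).2 h)]

theorem red_mul_red (h1 : 1 < n) (hn : Odd n) (u g : (ZMod n)ˣ) :
    red (u * red g) = red (u * g) := by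
  by_cases h : g ∈ half n
  · rw [red_of_mem h]
  · have h2 : red g = -g := if_neg h
    rw [h2, mul_neg, red_neg h1 hn]

/-- multiplication by a unit permutes the lower half up to signs -/
theorem prod_red {M : Type*} [CommMonoid M] (h1 : 1 < n) (hn : Odd n) (u : (ZMod n)ˣ)
    (f : (ZMod n)ˣ → M) : ∏ g ∈ half n, f (red (u * g)) = ∏ g ∈ half n, f g := by
  refine Finset.prod_nbij' (fun g => red (u * g)) (fun g => red (u⁻¹ * g)) ?_ ?_ ?_ ?_ ?_
  · exact fun g _ => red_mem h1 hn _
  · exact fun g _ => red_mem h1 hn _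
  · intro g hg
    rw [red_mul_red h1 hn, inv_mul_cancel_left, red_of_mem hg]
  · intro g hg
    rw [red_mul_red h1 hn, mul_inv_cancel_left, red_of_mem hg]
  · exact fun g _ => rfl

theorem sum_red {M : Type*} [AddCommMonoid M] (h1 : 1 < n) (hn : Odd n) (u : (ZMod n)ˣ)
    (f : (ZMod n)ˣ → M) : ∑ g ∈ half n, f (red (u * g)) = ∑ g ∈ half n, f g :=
  prod_red (M := Multiplicative M) h1 hn u f

/-- even functions -/
theorem sum_half {M : Type*} [AddCommMonoid M] (h1 : 1 < n) (hn : Odd n) (u : (ZMod n)ˣ)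
    (f : (ZMod n)ˣ → M) (hf : ∀ g, f (-g) = f g) :
    ∑ g ∈ half n, f (u * g) = ∑ g ∈ half n, f g := by
  rw [← sum_red h1 hn u f]
  refine Finset.sum_congr rfl fun g _ => ?_
  unfold red
  split_ifs
  · rfl
  · rw [hf]

theorem two_mul_card_half (h1 : 1 < n) (hn : Odd n) :
    2 * (half n).card = Fintype.card (ZMod n)ˣ := by
  have h2 : (univ.filter fun g : (ZMod n)ˣ => ¬ g ∈ half n).card = (half n).card := by
    refine Finset.card_nbij' (fun g => -g) (fun g => -g) ?_ ?_ ?_ ?_
    · intro g hg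
      exact (neg_mem_half h1 hn).2 (mem_filter.1 hg).2
    · intro g hg
      refine mem_filter.2 ⟨mem_univ _, ?_⟩
      rw [neg_mem_half h1 hn, not_not]
      exact hg
    · exact fun g _ => neg_neg g
    · exact fun g _ => neg_neg g
  have h3 : (univ.filter fun g : (ZMod n)ˣ => g ∈ half n) = half n := by
    ext g; simp
  have h4 := Finset.card_filter_add_card_filter_not (s := (univ : Finset (ZMod n)ˣ))
    (fun g => g ∈ half n)
  rw [h2, h3, Finset.card_univ] at h4
  omega

/-- the number of sign changes -/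
def mu (A : (ZMod n)ˣ) : ℕ := ((half n).filter fun g => A * g ∉ half n).card

/-- Gauss's lemma -/
theorem pow_card_half (h1 : 1 < n) (hn : Odd n) (A : (ZMod n)ˣ) :
    A ^ (half n).card = (-1) ^ mu A := by
  have h2 : ∏ g ∈ half n, A * g = A ^ (half n).card * ∏ g ∈ half n, g := by
    rw [Finset.prod_mul_distrib, Finset.prod_const]
  have h3 : ∏ g ∈ half n, A * g =
      (∏ g ∈ half n, if A * g ∉ half n then (-1 : (ZMod n)ˣ) else 1) *
        ∏ g ∈ half n, red (A * g) := by
    rw [← Finset.prod_mul_distrib]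
    refine Finset.prod_congr rfl fun g _ => ?_
    unfold red
    by_cases h : A * g ∈ half n
    · rw [if_pos h, if_neg (not_not.2 h), one_mul]
    · rw [if_neg h, if_pos h, neg_one_mul, neg_neg]
  have h4 : (∏ g ∈ half n, if A * g ∉ half n then (-1 : (ZMod n)ˣ) else 1) = (-1) ^ mu A := by
    rw [← Finset.prod_filter, Finset.prod_const]
    rfl
  rw [h4, prod_red h1 hn A (fun g => g), h2] at h3
  exact mul_right_cancel h3

/-- the parity of the residues -/
theorem sum_val (h1 : 1 < n) (hn : Odd n) (A : (ZMod n)ˣ) :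
    ∑ g ∈ half n, ((((A * g : (ZMod n)ˣ) : ZMod n).val : ℕ) : ZMod 2) =
      mu A + ∑ g ∈ half n, (((g : ZMod n).val : ℕ) : ZMod 2) := by
  have h2 : ∀ g ∈ half n, ((((A * g : (ZMod n)ˣ) : ZMod n).val : ℕ) : ZMod 2) =
      (if A * g ∉ half n then (1 : ZMod 2) else 0) +
        ((((red (A * g) : (ZMod n)ˣ) : ZMod n).val : ℕ) : ZMod 2) := by
    intro g _
    by_cases h : A * g ∈ half n
    · rw [if_neg (not_not.2 h), zero_add, red_of_mem h]
    · have h3 : red (A * g) = -(A * g) := if_neg h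
      rw [if_pos h, h3, val_neg h1, Nat.cast_sub (ZMod.val_lt _).le]
      have h4 : ((n : ℕ) : ZMod 2) = 1 := by
        obtain ⟨k, hk⟩ := hn
        rw [hk]
        push_cast
        have : (2 : ZMod 2) = 0 := by decide
        rw [this, zero_mul, zero_add]
      rw [h4]
      generalize ((((A * g : (ZMod n)ˣ) : ZMod n).val : ℕ) : ZMod 2) = x
      revert x
      decide
  rw [Finset.sum_congr rfl h2, Finset.sum_add_distrib,
    sum_red h1 hn A (fun g => (((g : ZMod n).val : ℕ) : ZMod 2))]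
  congr 1
  rw [← Finset.sum_filter, Finset.sum_const, nsmul_eq_mul, mul_one]
  rfl

end half

/-- the sum of the residues of `g a_D` -/
def total {ι : Type*} [Fintype ι] (n : ℕ) (a : ι → ℤ) (g : (ZMod n)ˣ) : ℕ :=
  ∑ D, ((g : ZMod n) * (a D : ZMod n)).val

section total

variable {ι : Type*} [Fintype ι] {n : ℕ} [NeZero n] {a : ι → ℤ}

theorem dvd_total (hsum : ∑ D, a D = 0) (g : (ZMod n)ˣ) : n ∣ total n a g := by
  rw [← ZMod.natCast_eq_zero_iff, total, Nat.cast_sum]
  simp only [ZMod.natCast_val, ZMod.cast_id', id_eq]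
  rw [← Finset.mul_sum, ← Int.cast_sum, hsum, Int.cast_zero, mul_zero]

theorem total_neg (h1 : 1 < n) (A : ι → (ZMod n)ˣ) (hA : ∀ D, (A D : ZMod n) = a D)
    (g : (ZMod n)ˣ) : total n a (-g) + total n a g = n * Fintype.card ι := by
  rw [total, total, ← Finset.sum_add_distrib]
  have h2 : ∀ D ∈ (univ : Finset ι), (((-g : (ZMod n)ˣ) : ZMod n) * (a D : ZMod n)).val +
      ((g : ZMod n) * (a D : ZMod n)).val = n := by
    intro D _
    have h3 : ((-g : (ZMod n)ˣ) : ZMod n) * (a D : ZMod n) = ((-(g * A D) : (ZMod n)ˣ) : ZMod n) := by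
      rw [← hA]
      push_cast
      ring
    have h4 : (g : ZMod n) * (a D : ZMod n) = ((g * A D : (ZMod n)ˣ) : ZMod n) := by
      rw [← hA]
      push_cast
      ring
    rw [h3, h4, val_neg h1]
    have := ZMod.val_lt ((g * A D : (ZMod n)ˣ) : ZMod n)
    omega
  rw [Finset.sum_congr rfl h2, Finset.sum_const, Finset.card_univ, smul_eq_mul, mul_comm]

end total

theorem exists_even_aux {r k n : ℕ} [hr : Fact r.Prime] (hn : n = r ^ k) (hr2 : r ≠ 2)
    (hk : 0 < k) {ι : Type*} [Fintype ι] (hc : Even (Fintype.card ι)) (a : ι → ℤ)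
    (ha : ∀ D, ¬ (r : ℤ) ∣ a D) (hsum : ∑ D, a D = 0)
    (hns : ¬ IsSquare (((-∏ D, a D : ℤ)) : ZMod r))
    (H : Subgroup (ZMod n)ˣ) (hH : Odd (Nat.card H)) :
    ∃ h : (ZMod n)ˣ, Even (∑ᶠ u : H, total n a (u * h) / n) := by
  classical
  have hrp : r.Prime := hr.out
  have : NeZero n := ⟨by rw [hn]; exact pow_ne_zero _ hrp.ne_zero⟩
  have h1 : 1 < n := by rw [hn]; exact Nat.one_lt_pow hk.ne' hrp.one_lt
  have hrodd : Odd r := hrp.odd_of_ne_two hr2
  have hodd : Odd n := by rw [hn]; exact hrodd.pow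
  -- the units
  have hunit : ∀ D, IsUnit ((a D : ℤ) : ZMod n) := by
    intro D
    rw [ZMod.coe_int_isUnit_iff_isCoprime, hn]
    push_cast
    refine IsCoprime.pow_left ?_
    exact (Nat.prime_iff_prime_int.1 hrp).coprime_iff_not_dvd.2 (ha D)
  choose A hA using hunit
  -- the total parity
  let N : (ZMod n)ˣ → ℕ := fun g => total n a g / n
  have hN : ∀ g, n * N g = total n a g := fun g => Nat.mul_div_cancel' (dvd_total hsum g)
  have hn2 : ((n : ℕ) : ZMod 2) = 1 := by
    obtain ⟨j, hj⟩ := hodd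
    rw [hj]
    push_cast
    have : (2 : ZMod 2) = 0 := by decide
    rw [this, zero_mul, zero_add]
  have hN2 : ∀ g, (N g : ZMod 2) = ∑ D, ((((A D * g : (ZMod n)ˣ) : ZMod n).val : ℕ) : ZMod 2) := by
    intro g
    have h2 : ((n * N g : ℕ) : ZMod 2) = N g := by
      rw [Nat.cast_mul, hn2, one_mul]
    rw [← h2, hN, total, Nat.cast_sum]
    refine Finset.sum_congr rfl fun D _ => ?_
    rw [Units.val_mul, hA, mul_comm]
  have hNneg : ∀ g, (N (-g) : ZMod 2) = N g := by
    intro g
    have h2 := total_neg h1 A hA g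
    rw [← hN, ← hN, ← Nat.mul_add] at h2
    have h3 : N (-g) + N g = Fintype.card ι := Nat.eq_of_mul_eq_mul_left (by omega) h2
    have h4 : ((N (-g) + N g : ℕ) : ZMod 2) = 0 := by
      rw [h3]
      exact (ZMod.natCast_eq_zero_iff _ _).2 hc.two_dvd
    push_cast at h4
    have h5 : ∀ x y : ZMod 2, x + y = 0 → x = y := by decide
    exact h5 _ _ h4
  -- the sum over the half system
  have hcard := two_mul_card_half (n := n) h1 hodd
  have hsumN : ∑ g ∈ half n, ((N g : ZMod 2) + 1) =
      ((∑ D, mu (A D) + (half n).card : ℕ) : ZMod 2) := by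
    rw [Finset.sum_add_distrib, Finset.sum_const, nsmul_eq_mul, mul_one, Nat.cast_add,
      Nat.cast_sum]
    congr 1
    rw [Finset.sum_congr rfl fun g _ => hN2 g, Finset.sum_comm,
      Finset.sum_congr rfl fun D _ => sum_val h1 hodd (A D), Finset.sum_add_distrib,
      Finset.sum_const, Finset.card_univ, nsmul_eq_mul]
    rw [(ZMod.natCast_eq_zero_iff _ _).2 hc.two_dvd, zero_mul, add_zero]
  -- the total parity is odd
  have htot : Odd (∑ D, mu (A D) + (half n).card) := by
    have h2 : (-∏ D, A D) ^ (half n).card = (-1) ^ (∑ D, mu (A D) + (half n).card) := by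
      rw [neg_pow, ← Finset.prod_pow, Finset.prod_congr rfl fun D _ => pow_card_half h1 hodd (A D),
        Finset.prod_pow_eq_pow_sum, ← pow_add, add_comm]
    -- reduction modulo `r`
    let φ : ZMod n →+* ZMod r :=
      ZMod.castHom (hn ▸ dvd_pow_self r hk.ne' : r ∣ n) (ZMod r)
    have h3 := congrArg (fun x : (ZMod n)ˣ => φ (x : ZMod n)) h2
    simp only [Units.val_pow_eq_pow_val, Units.val_neg, Units.coe_prod, map_pow, map_neg,
      map_prod, hA, map_intCast, Units.val_one, map_one] at h3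
    have hM : (half n).card = r / 2 * r ^ (k - 1) := by
      have h4 : Fintype.card (ZMod n)ˣ = r ^ (k - 1) * (r - 1) := by
        rw [ZMod.card_units_eq_totient, hn, Nat.totient_prime_pow hrp hk]
      rw [h4] at hcard
      obtain ⟨j, hj⟩ := hrodd
      have h5 : r / 2 = j := by omega
      have h6 : r - 1 = 2 * j := by omega
      rw [h5]
      rw [h6] at hcard
      have h7 : 2 * (half n).card = 2 * (j * r ^ (k - 1)) := by rw [hcard]; ring
      omega
    have hb0 : (((-∏ D, a D : ℤ)) : ZMod r) ≠ 0 := by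
      intro h
      apply hns
      rw [h]
      exact ⟨0, by ring⟩
    have hb : (((-∏ D, a D : ℤ)) : ZMod r) ^ (r / 2) = -1 := by
      rcases ZMod.pow_div_two_eq_neg_one_or_one r hb0 with h | h
      · exact absurd ((ZMod.euler_criterion r hb0).2 h) hns
      · exact h
    have h4 : (-∏ D, ((a D : ℤ) : ZMod r)) ^ (half n).card = -1 := by
      have h5 : (-∏ D, ((a D : ℤ) : ZMod r)) = (((-∏ D, a D : ℤ)) : ZMod r) := by
        push_cast
        rfl
      rw [h5, hM, pow_mul, hb]
      exact (hrodd.pow).neg_one_pow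
    rw [h4] at h3
    by_contra hcon
    rw [Nat.not_odd_iff_even] at hcon
    rw [hcon.neg_one_pow] at h3
    have : Fact (2 < r) := ⟨lt_of_le_of_ne hrp.two_le (Ne.symm hr2)⟩
    exact ZMod.neg_one_ne_one h3
  -- the double count
  by_contra hcon
  push Not at hcon
  have : Fintype H := Fintype.ofFinite H
  have hsub : ∀ h : (ZMod n)ˣ, ∑ u : H, ((N ((u : (ZMod n)ˣ) * h) : ZMod 2) + 1) = 0 := by
    intro h
    have h2 : ¬ Even (∑ᶠ u : H, N ((u : (ZMod n)ˣ) * h)) := hcon h
    rw [Nat.not_even_iff_odd, finsum_eq_sum_of_fintype] at h2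
    have h3 : ((∑ u : H, N ((u : (ZMod n)ˣ) * h) : ℕ) : ZMod 2) = 1 := by
      rw [← ZMod.natCast_eq_one_iff_odd] at h2
      exact h2
    rw [Finset.sum_add_distrib, Finset.sum_const, Finset.card_univ, nsmul_eq_mul, mul_one,
      ← Nat.cast_sum, h3]
    have h4 : ((Fintype.card H : ℕ) : ZMod 2) = 1 := by
      rw [Nat.card_eq_fintype_card] at hH
      exact (ZMod.natCast_eq_one_iff_odd).2 hH
    rw [h4]
    decide
  have hzero : ∑ g ∈ half n, ((N g : ZMod 2) + 1) = 0 := by
    have h2 : ∑ u : H, ∑ g ∈ half n, ((N ((u : (ZMod n)ˣ) * g) : ZMod 2) + 1) =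
        (Fintype.card H : ZMod 2) * ∑ g ∈ half n, ((N g : ZMod 2) + 1) := by
      rw [← nsmul_eq_mul, ← Finset.card_univ, ← Finset.sum_const]
      refine Finset.sum_congr rfl fun u _ => ?_
      exact sum_half h1 hodd (u : (ZMod n)ˣ) (fun g => (N g : ZMod 2) + 1)
        (fun g => by rw [hNneg])
    rw [Finset.sum_comm, Finset.sum_congr rfl fun g _ => hsub g, Finset.sum_const_zero] at h2
    have h4 : ((Fintype.card H : ℕ) : ZMod 2) = 1 := by
      rw [Nat.card_eq_fintype_card] at hH
      exact (ZMod.natCast_eq_one_iff_odd).2 hH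
    rw [h4, one_mul] at h2
    exact h2.symm
  rw [hsumN] at hzero
  rw [← Nat.not_even_iff_odd] at htot
  apply htot
  rw [even_iff_two_dvd]
  exact (ZMod.natCast_eq_zero_iff _ _).1 hzero

/-- **Block G.**  Let `r` be an odd prime and let `a D` be an even number of integers prime to `r`
with sum zero such that minus their product is not a square modulo `r`.  Then for every subgroup
`H` of odd order of the units modulo `r ^ k` there is a unit `h` such that the sum over `H` of the
integers `∑ D, ⟨u h a_D / r ^ k⟩` is even. -/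
theorem exists_even {r k : ℕ} [Fact r.Prime] (hr2 : r ≠ 2) (hk : 0 < k) {ι : Type*}
    [Fintype ι] (hc : Even (Fintype.card ι)) (a : ι → ℤ) (ha : ∀ D, ¬ (r : ℤ) ∣ a D)
    (hsum : ∑ D, a D = 0) (hns : ¬ IsSquare (((-∏ D, a D : ℤ)) : ZMod r))
    (H : Subgroup (ZMod (r ^ k))ˣ) (hH : Odd (Nat.card H)) :
    ∃ h : (ZMod (r ^ k))ˣ, Even (∑ᶠ u : H, total (r ^ k) a (u * h) / r ^ k) :=
  exists_even_aux rfl hr2 hk hc a ha hsum hns H hH

end Pool.Agent.Helper79.QC
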