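import Pool.Agent.Helper73.QC.Good

/-!
# A criterion with the elements of odd order, for all primes `p` at once
-/

set_option autoImplicit false

namespace Pool.Agent.Helper73.QC

open Finset

/-- The exponents are killed by `2 r ^ j`, `r` an odd prime, one of the ten exponents is killed by
`r ^ j`, and the sum of `1 + height (h x a)` over the elements `x` of odd order is odd. -/
def OddOrders {n : ℕ} (a : Fin 5 → ZMod n) : Prop :=
  ∃ r j : ℕ, r.Prime ∧ r ≠ 2 ∧ (∀ i, 2 * (r : ZMod n) ^ j * a i = 0) ∧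
    (∃ i, (r : ZMod n) ^ j * residues a i = 0) ∧ ∃ h : (ZMod n)ˣ,
      Odd (∑ᶠ x : {x : (ZMod n)ˣ // Odd (orderOf x)},
        (1 + height fun i => (h : ZMod n) * ((x : (ZMod n)ˣ) : ZMod n) * a i))

/-- division by two -/
theorem half_zero {n r j : ℕ} [NeZero n] (hr : Odd r) {z : ZMod n}
    (hz : 2 * (r : ZMod n) ^ j * z = 0) {w : ℕ} (hw : Odd n ∨ Even w)
    (h : 2 * (w : ZMod n) * z = 0) : (w : ZMod n) * z = 0 := by
  rcases hw with hn | ⟨u, hu⟩
  · have h2 : IsUnit ((2 : ℕ) : ZMod n) := by
      rw [ZMod.isUnit_iff_coprime, Nat.coprime_two_left]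
      exact hn
    have h3 : ((2 : ℕ) : ZMod n) * ((w : ZMod n) * z) = 0 := by
      push_cast
      linear_combination h
    exact (h2.mul_right_eq_zero).1 h3
  · obtain ⟨v, hv⟩ := hr.pow (n := j)
    have hv' : (r : ZMod n) ^ j = 2 * v + 1 := by exact_mod_cast congrArg (Nat.cast : ℕ → ZMod n) hv
    have hu' : (w : ZMod n) = u + u := by rw [hu, Nat.cast_add]
    rw [hv'] at hz
    rw [hu'] at h ⊢
    linear_combination (u : ZMod n) * hz - (v : ZMod n) * h

theorem odd_orders_imp {p n : ℕ} [hp : Fact p.Prime] (hpn : p.Coprime n) (hn0 : n ≠ 0)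
    {a : Fin 5 → ZMod n} (h : OddOrders a) : SelfDual p a ∨ OddPlace p a := by
  classical
  obtain ⟨r, j, hr, hr2, hkill, hone, h0, hodd⟩ := h
  have : NeZero n := ⟨hn0⟩
  have hrodd := hr.odd_of_ne_two hr2
  let P : (ZMod n)ˣ := ZMod.unitOfCoprime p hpn
  have hP : (P : ZMod n) = p := ZMod.coe_unitOfCoprime p hpn
  have hex : ∃ m, 0 < m ∧ ∀ i, (p : ZMod n) ^ m * a i = a i := by
    refine ⟨orderOf P, orderOf_pos P, fun i => ?_⟩
    rw [← hP, ← Units.val_pow_eq_pow_val, pow_orderOf_eq_one, Units.val_one, one_mul]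
  set m := Nat.find hex with hm
  obtain ⟨hm0, hma⟩ := Nat.find_spec hex
  have hmin : ∀ l, 0 < l → l < m → ¬ ∀ i, (p : ZMod n) ^ l * a i = a i := by
    intro l hl hlm h
    exact Nat.find_min hex hlm ⟨hl, h⟩
  rcases Nat.even_or_odd m with ⟨q, hq⟩ | hmodd
  · -- the period is even
    left
    refine ⟨q, r, j, hr, hr2, ?_, hkill, hone⟩
    have hq0 : 0 < q := by omega
    have hsq : ∀ i, ((p : ZMod n) ^ q - 1) * (((p : ZMod n) ^ q + 1) * a i) = 0 := by
      intro i
      have h1 := hma i
      rw [← hm, hq, pow_add] at h1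
      linear_combination h1
    have hpq : 1 ≤ p ^ q := Nat.one_le_pow _ _ hp.out.pos
    have hpar : ∀ w : ℕ, (w = p ^ q - 1 ∨ w = p ^ q + 1) → Odd n ∨ Even w := by
      intro w hw
      rcases Nat.even_or_odd n with hn | hn
      · right
        have hpo : Odd p := by
          rw [← Nat.coprime_two_right]
          exact hpn.coprime_dvd_right hn.two_dvd
        obtain ⟨y, hy⟩ := hpo.pow (n := q)
        rcases hw with hw | hw
        · exact ⟨y, by omega⟩
        · exact ⟨y + 1, by omega⟩
      · left; exact hn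
    -- an element killed by `x` prime to `r` and by `2 r ^ j`
    have hkey : ∀ (x w : ℕ), ¬ r ∣ x → (w = p ^ q - 1 ∨ w = p ^ q + 1) →
        (∀ i, (x : ZMod n) * ((w : ZMod n) * a i) = 0) → ∀ i, (w : ZMod n) * a i = 0 := by
      intro x w hx hw hxw i
      refine half_zero hrodd (hkill i) (hpar w hw) ?_
      have hcop : IsCoprime (x : ℤ) ((r : ℤ) ^ j) := by
        refine IsCoprime.pow_right ?_
        rw [Nat.isCoprime_iff_coprime, Nat.coprime_comm]
        exact (hr.coprime_iff_not_dvd).2 hx
      obtain ⟨α, β, hαβ⟩ := hcop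
      have h1 : (α : ZMod n) * x + (β : ZMod n) * (r : ZMod n) ^ j = 1 := by
        exact_mod_cast congrArg (Int.cast : ℤ → ZMod n) hαβ
      linear_combination (2 * (w : ZMod n) * a i) * (-h1) + 2 * (α : ZMod n) * hxw i +
        (β : ZMod n) * (w : ZMod n) * hkill i
    by_cases hrd : r ∣ p ^ q + 1
    · have hnd : ¬ r ∣ p ^ q - 1 := by
        intro h
        have h2 : r ∣ (p ^ q + 1) - (p ^ q - 1) := Nat.dvd_sub hrd h
        have h3 : (p ^ q + 1) - (p ^ q - 1) = 2 := by omega
        rw [h3] at h2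
        exact hr2 ((Nat.prime_dvd_prime_iff_eq hr Nat.prime_two).1 h2)
      intro i
      have h1 := hkey (p ^ q - 1) (p ^ q + 1) hnd (Or.inr rfl) (fun i => by
        rw [Nat.cast_sub hpq]
        push_cast
        exact hsq i) i
      push_cast at h1
      linear_combination h1
    · exfalso
      refine hmin q hq0 (by omega) fun i => ?_
      have h1 := hkey (p ^ q + 1) (p ^ q - 1) hrd (Or.inl rfl) (fun i => by
        rw [Nat.cast_sub hpq]
        push_cast
        linear_combination hsq i) i
      rw [Nat.cast_sub hpq] at h1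
      push_cast at h1
      linear_combination h1
  · -- the period is odd
    right
    by_contra hcon
    have hev : ∀ h : (ZMod n)ˣ, Even (∑ l ∈ range m,
        (1 + height fun i => (h : ZMod n) * (p : ZMod n) ^ l * a i)) := by
      intro h
      rw [← Nat.not_odd_iff_even, Finset.sum_add_distrib, Finset.sum_const, card_range,
        smul_eq_mul, mul_one]
      intro h1
      exact hcon ⟨m, hm0, hma, h, h1⟩
    -- an element of odd order acting like `p`
    obtain ⟨e, o, ho, heo⟩ := Nat.exists_eq_two_pow_mul_odd (n := orderOf P) (orderOf_pos P).ne'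
    have hcop : Nat.Coprime (2 ^ e) m := by
      refine Nat.Coprime.pow_left e ?_
      rw [Nat.coprime_two_left]
      exact hmodd
    obtain ⟨N, hN1, hN2⟩ := Nat.chineseRemainder hcop 0 1
    set R := P ^ N with hR
    have hRodd : Odd (orderOf R) := by
      have h1 : R ^ o = 1 := by
        obtain ⟨y, hy⟩ := (Nat.modEq_zero_iff_dvd).1 hN1
        rw [hR, ← pow_mul, hy]
        have h2 : 2 ^ e * y * o = orderOf P * y := by rw [heo]; ring
        rw [h2, pow_mul, pow_orderOf_eq_one, one_pow]
      exact ho.of_dvd_nat (orderOf_dvd_of_pow_eq_one h1)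
    have hpm : ∀ y i, (p : ZMod n) ^ (m * y) * a i = a i := by
      intro y
      induction y with
      | zero => intro i; simp
      | succ y ih =>
        intro i
        rw [Nat.mul_succ, pow_add, mul_assoc, hma, ih]
    have hRa : ∀ i, (R : ZMod n) * a i = (p : ZMod n) * a i := by
      intro i
      rw [hR, Units.val_pow_eq_pow_val, hP]
      rcases Nat.lt_or_ge N 1 with h1 | h1
      · have h2 : N = 0 := by omega
        rw [h2] at hN2
        have h3 : m ∣ 1 := (Nat.modEq_zero_iff_dvd).1 hN2.symm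
        have h4 : m = 1 := Nat.dvd_one.1 h3
        have h5 := hma i
        rw [← hm, h4, pow_one] at h5
        rw [h2, pow_zero, one_mul, h5]
      · obtain ⟨y, hy⟩ := (Nat.modEq_iff_dvd' h1).1 hN2.symm
        have h2 : N = 1 + m * y := by omega
        rw [h2, pow_add, mul_assoc, hpm, pow_one]
    have hRl : ∀ (l : ℕ) i, (R : ZMod n) ^ l * a i = (p : ZMod n) ^ l * a i := by
      intro l
      induction l with
      | zero => intro i; rw [pow_zero, pow_zero]
      | succ l ih =>
        intro i
        rw [pow_succ, mul_assoc, hRa, mul_left_comm, ih, pow_succ]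
        ring
    have hfin : Finite {x : (ZMod n)ˣ // Odd (orderOf x)} := inferInstance
    let _ : Fintype {x : (ZMod n)ˣ // Odd (orderOf x)} := Fintype.ofFinite _
    rw [finsum_eq_sum_of_fintype] at hodd
    have hmul : ∀ {x y : (ZMod n)ˣ}, Odd (orderOf x) → Odd (orderOf y) → Odd (orderOf (x * y)) := by
      intro x y hx hy
      refine (hx.mul hy).of_dvd_nat ?_
      exact ((Commute.all x y).orderOf_mul_dvd_lcm).trans (Nat.lcm_dvd_mul _ _)
    have htrans : ∀ (F : (ZMod n)ˣ → ℕ) (y : (ZMod n)ˣ), Odd (orderOf y) →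
        ∑ x : {x : (ZMod n)ˣ // Odd (orderOf x)}, F (y * x) =
          ∑ x : {x : (ZMod n)ˣ // Odd (orderOf x)}, F x := by
      intro F y hy
      have hy' : Odd (orderOf y⁻¹) := by rwa [orderOf_inv]
      let E : {x : (ZMod n)ˣ // Odd (orderOf x)} ≃ {x : (ZMod n)ˣ // Odd (orderOf x)} :=
        { toFun := fun x => ⟨y * x, hmul hy x.2⟩
          invFun := fun x => ⟨y⁻¹ * x, hmul hy' x.2⟩
          left_inv := fun x => Subtype.ext (inv_mul_cancel_left _ _)
          right_inv := fun x => Subtype.ext (mul_inv_cancel_left _ _) }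
      exact Fintype.sum_equiv E _ _ fun x => rfl
    have hRlodd : ∀ l, Odd (orderOf (R ^ l)) := fun l =>
      hRodd.of_dvd_nat (orderOf_pow_dvd l)
    set f : (ZMod n)ˣ → ℕ := fun x => 1 + height fun i => (h0 : ZMod n) * (x : ZMod n) * a i with hf
    have h1 : ∑ l ∈ range m, ∑ x : {x : (ZMod n)ˣ // Odd (orderOf x)}, f (R ^ l * x) =
        m * ∑ x : {x : (ZMod n)ˣ // Odd (orderOf x)}, f x := by
      rw [Finset.sum_congr rfl fun l _ => htrans f (R ^ l) (hRlodd l), Finset.sum_const,
        card_range, smul_eq_mul]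
    have h2 : Even (∑ l ∈ range m, ∑ x : {x : (ZMod n)ˣ // Odd (orderOf x)}, f (R ^ l * x)) := by
      rw [Finset.sum_comm]
      refine Finset.even_sum _ fun x _ => ?_
      have h3 : ∀ l ∈ range m, f (R ^ l * (x : (ZMod n)ˣ)) =
          1 + height fun i => ((h0 * (x : (ZMod n)ˣ) : (ZMod n)ˣ) : ZMod n) *
            (p : ZMod n) ^ l * a i := by
        intro l _
        rw [hf]
        change 1 + height _ = 1 + height _
        congr 2
        funext i
        rw [Units.val_mul, Units.val_mul, Units.val_pow_eq_pow_val]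
        linear_combination ((h0 : ZMod n) * ((x : (ZMod n)ˣ) : ZMod n)) * hRl l i
      rw [Finset.sum_congr rfl h3]
      exact hev _
    rw [h1, Nat.even_mul] at h2
    rcases h2 with h2 | h2
    · exact (Nat.not_even_iff_odd.2 hmodd) h2
    · exact (Nat.not_even_iff_odd.2 hodd) h2

end Pool.Agent.Helper73.QC
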