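import Pool.Agent.Helper79.QC.Binom

/-!
# The 2-adic criterion for exponents `r ^ k` and `2 r ^ k`
-/

set_option autoImplicit false

namespace Pool.Agent.Helper79.QC

open Finset Polynomial

/-- The key lemma for an arbitrary constant. -/
theorem binom_key' {s : ℕ} {φ : ℕ → ZMod 2} (hφ : ∀ c, φ (c + 2 ^ s) = φ c + 1) {ι : Type*}
    [Fintype ι] (α : ι → ℕ) (κ : ZMod 2) (hF : ∀ c, ∑ D, φ (c + α D) = κ) :
    (∀ j < 2 ^ s, Even (∑ D, (α D).choose j)) ∧
      ((∑ D, (α D).choose (2 ^ s) : ℕ) : ZMod 2) = κ := by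
  classical
  obtain ⟨B, hB⟩ : ∃ B, (∀ D, α D < B) ∧ 2 ^ s < B := by
    refine ⟨∑ D, α D + 2 ^ s + 1, fun D => ?_, by omega⟩
    have h1 := Finset.single_le_sum (f := α) (fun i _ => Nat.zero_le _) (Finset.mem_univ D)
    have h2 : 0 < 2 ^ s := by positivity
    omega
  let e : ℕ → ℕ := fun j => ∑ D, (α D).choose j
  have hexp : (fun _ => κ : ℕ → ZMod 2) = ∑ j ∈ range B, ((e j : ℕ) : ZMod 2) • (dl ^ j) φ := by
    have h1 : (fun _ => κ : ℕ → ZMod 2) = ∑ D, (shift ^ α D) φ := by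
      funext c
      rw [Finset.sum_apply, Finset.sum_congr rfl fun D _ => shift_pow φ (α D) c]
      exact (hF c).symm
    rw [h1]
    have h2 : ∀ D ∈ (Finset.univ : Finset ι), (shift ^ α D) φ =
        ∑ j ∈ range B, (((α D).choose j : ℕ) : ZMod 2) • (dl ^ j) φ := by
      intro D _
      rw [shift_pow_eq (α D) B (hB.1 D), LinearMap.sum_apply]
      rfl
    rw [Finset.sum_congr rfl h2, Finset.sum_comm]
    refine sum_congr rfl fun j _ => ?_
    rw [← Finset.sum_smul, ← Nat.cast_sum]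
  have hone : ∀ c, (dl ^ 2 ^ s) φ c = 1 := by
    intro c
    rw [dl_pow_two_pow, hφ]
    ring
  have hzero : ∀ j, 2 ^ s < j → (dl ^ j) φ = 0 := by
    intro j hj
    have h1 : j = (j - 2 ^ s) + 2 ^ s := by omega
    rw [h1, pow_add, Module.End.mul_apply]
    exact dl_pow_const hone (by omega)
  have hex : ¬ ∃ j < 2 ^ s, Odd (e j) := by
    intro hex
    have hmin := Nat.find_spec hex
    set j0 := Nat.find hex with hj0
    have hlt : ∀ j < j0, ((e j : ℕ) : ZMod 2) = 0 := by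
      intro j hj
      have h1 := Nat.find_min hex hj
      have h2 : ¬ Odd (e j) := fun h => h1 ⟨by omega, h⟩
      rw [Nat.not_odd_iff_even] at h2
      exact (ZMod.natCast_eq_zero_iff _ _).2 h2.two_dvd
    have h1 := congrArg (dl ^ (2 ^ s - j0)) hexp
    rw [dl_pow_const (x := κ) (fun _ => rfl) (by omega), map_sum] at h1
    rw [Finset.sum_eq_single j0] at h1
    · rw [map_smul, ← Module.End.mul_apply, ← pow_add] at h1
      have h2 : 2 ^ s - j0 + j0 = 2 ^ s := by omega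
      rw [h2, (ZMod.natCast_eq_one_iff_odd).2 hmin.2, one_smul] at h1
      have h3 := congrFun h1 0
      rw [hone] at h3
      simp at h3
    · intro j _ hj
      rw [map_smul, ← Module.End.mul_apply, ← pow_add]
      rcases Nat.lt_or_ge j j0 with h | h
      · rw [hlt j h, zero_smul]
      · rw [hzero _ (by omega), smul_zero]
    · intro h
      exact absurd (mem_range.2 (by omega)) h
  have heven : ∀ j < 2 ^ s, Even (e j) := by
    intro j hj
    rw [← Nat.not_odd_iff_even]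
    exact fun h => hex ⟨j, hj, h⟩
  refine ⟨heven, ?_⟩
  have h1 := congrFun hexp 0
  rw [Finset.sum_apply, Finset.sum_eq_single (2 ^ s)] at h1
  · rw [Pi.smul_apply, hone, smul_eq_mul, mul_one] at h1
    exact h1.symm
  · intro j _ hj
    rcases Nat.lt_or_ge j (2 ^ s) with h | h
    · rw [(ZMod.natCast_eq_zero_iff _ _).2 (heven j h).two_dvd, zero_smul]
      rfl
    · rw [hzero j (by omega), smul_zero]
      rfl
  · intro h
    exact absurd (mem_range.2 hB.2) h

section core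

variable {r n : ℕ} [hr : Fact r.Prime]

/-- The core of the criterion. -/
theorem binom_core {k s t : ℕ} (hn : n = r ^ k) [NeZero n] (hrn : r ∣ n) (h1 : 1 < n)
    (hst : r - 1 = 2 ^ (s + 1) * t) (ht : Odd t) (g : (ZMod r)ˣ) (hg : orderOf g = r - 1)
    {ι : Type*} [Fintype ι] (A : ι → (ZMod n)ˣ) (α : ι → ℕ)
    (hπA : ∀ D, ZMod.unitsMap hrn (A D) = g ^ α D) (ε : ZMod 2) {H : Type*} [Fintype H]
    (hH : Odd (Fintype.card H)) (ρ : H → (ZMod n)ˣ) (hρ : ∀ u, (ZMod.unitsMap hrn (ρ u)) ^ t = 1)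
    (hN : ∀ h : (ZMod n)ˣ, ∑ u : H, (ε + ∑ D, ((((ρ u * h * A D : (ZMod n)ˣ) : ZMod n).val : ℕ) :
      ZMod 2)) = 1) :
    (∀ j < 2 ^ s, Even (∑ D, (α D).choose j)) ∧
      ((∑ D, (α D).choose (2 ^ s) : ℕ) : ZMod 2) = 1 + ε := by
  classical
  have hrp : r.Prime := hr.out
  have hr2 : r ≠ 2 := by
    rintro rfl
    have h2 : 0 < 2 ^ s := by positivity
    have h3 := ht.pos
    have h4 : 1 ≤ 2 ^ s * t := Nat.mul_pos h2 h3
    rw [pow_succ] at hst
    have h5 : 2 ^ s * 2 * t = 2 * (2 ^ s * t) := by ring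
    omega
  have hrodd : Odd r := hrp.odd_of_ne_two hr2
  have hodd : Odd n := by rw [hn]; exact hrodd.pow
  set π := ZMod.unitsMap hrn with hπ
  have hπval : ∀ x : (ZMod n)ˣ, ((π x : (ZMod r)ˣ) : ZMod r) =
      ZMod.castHom hrn (ZMod r) (x : ZMod n) := fun x => rfl
  obtain ⟨G0, hG0⟩ := ZMod.unitsMap_surjective hrn g
  set Hm := oddPart hrn t with hHm
  have hmem : ∀ x, x ∈ Hm ↔ (π x) ^ t = 1 := mem_oddPart hrn t
  have hcard := card_oddPart hn hrn hr2 ht
  have : Fintype Hm := Fintype.ofFinite Hm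
  rw [← hHm, Nat.card_eq_fintype_card] at hcard
  have hcard2 : ((Fintype.card Hm : ℕ) : ZMod 2) = 1 := (ZMod.natCast_eq_one_iff_odd).2 hcard
  have hn2 : ((n : ℕ) : ZMod 2) = 1 := (ZMod.natCast_eq_one_iff_odd).2 hodd
  let φ : ℕ → ZMod 2 := fun c => ∑ x : Hm, ((((G0 ^ c * (x : (ZMod n)ˣ) : (ZMod n)ˣ) :
    ZMod n).val : ℕ) : ZMod 2)
  have htrans : ∀ (F : (ZMod n)ˣ → ZMod 2) (y : (ZMod n)ˣ), y ∈ Hm →
      ∑ x : Hm, F (y * (x : (ZMod n)ˣ)) = ∑ x : Hm, F (x : (ZMod n)ˣ) := by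
    intro F y hy
    exact Fintype.sum_equiv (Equiv.mulLeft (⟨y, hy⟩ : Hm)) _ _ fun x => rfl
  have hnegmem : -G0 ^ 2 ^ s ∈ Hm := by
    rw [hmem]
    have h2 : π (-G0 ^ 2 ^ s) = - g ^ 2 ^ s := by
      apply Units.ext
      rw [hπval, Units.val_neg, map_neg, ← hπval, map_pow, hG0, Units.val_neg]
    rw [h2, ht.neg_pow, ← pow_mul]
    have h3 : (g ^ (2 ^ s * t)) ^ 2 = 1 := by
      rw [← pow_mul, ← orderOf_dvd_iff_pow_eq_one, hg, hst]
      exact ⟨1, by ring⟩
    have h4 : g ^ (2 ^ s * t) ≠ 1 := by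
      intro h
      have h5 := orderOf_dvd_of_pow_eq_one h
      rw [hg, hst] at h5
      have h6 : 0 < 2 ^ s * t := Nat.mul_pos (by positivity) ht.pos
      have h7 := Nat.le_of_dvd h6 h5
      rw [pow_succ] at h7
      have h8 : 2 ^ s * 2 * t = 2 * (2 ^ s * t) := by ring
      omega
    have h5 : g ^ (2 ^ s * t) = -1 := by
      have h6 : (((g ^ (2 ^ s * t) : (ZMod r)ˣ) : ZMod r) - 1) *
          (((g ^ (2 ^ s * t) : (ZMod r)ˣ) : ZMod r) + 1) = 0 := by
        have h7 := congrArg (fun u : (ZMod r)ˣ => (u : ZMod r)) h3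
        simp only [Units.val_pow_eq_pow_val, Units.val_one] at h7
        rw [Units.val_pow_eq_pow_val]
        linear_combination h7
      rcases mul_eq_zero.1 h6 with h7 | h7
      · exfalso
        apply h4
        apply Units.ext
        rw [Units.val_one]
        linear_combination h7
      · apply Units.ext
        rw [Units.val_neg, Units.val_one]
        linear_combination h7
    rw [h5, neg_neg]
  have hφ : ∀ c, φ (c + 2 ^ s) = φ c + 1 := by
    intro c
    have h2 : φ (c + 2 ^ s) = ∑ x : Hm, ((((-(G0 ^ c * (x : (ZMod n)ˣ)) : (ZMod n)ˣ) :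
        ZMod n).val : ℕ) : ZMod 2) := by
      rw [← htrans (fun y => ((((-(G0 ^ c * y) : (ZMod n)ˣ) : ZMod n).val : ℕ) : ZMod 2))
        (-G0 ^ 2 ^ s) hnegmem]
      refine Finset.sum_congr rfl fun x _ => ?_
      congr 3
      rw [pow_add, neg_mul, mul_neg, neg_neg, mul_assoc]
    rw [h2]
    have h3 : ∀ x : Hm, ((((-(G0 ^ c * (x : (ZMod n)ˣ)) : (ZMod n)ˣ) : ZMod n).val : ℕ) : ZMod 2) =
        1 + ((((G0 ^ c * (x : (ZMod n)ˣ) : (ZMod n)ˣ) : ZMod n).val : ℕ) : ZMod 2) := by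
      intro x
      rw [val_neg h1, Nat.cast_sub (ZMod.val_lt _).le, hn2]
      have : ∀ z : ZMod 2, 1 - z = 1 + z := by decide
      exact this _
    rw [Finset.sum_congr rfl fun x _ => h3 x, Finset.sum_add_distrib, Finset.sum_const,
      Finset.card_univ, nsmul_eq_mul, mul_one, hcard2, add_comm]
  -- the values at the elements of the coset
  let N : (ZMod n)ˣ → ZMod 2 := fun h =>
    ε + ∑ D, ((((h * A D : (ZMod n)ˣ) : ZMod n).val : ℕ) : ZMod 2)
  have hsumN : ∀ c, ∑ x : Hm, N (G0 ^ c * (x : (ZMod n)ˣ)) = ε + ∑ D, φ (c + α D) := by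
    intro c
    rw [Finset.sum_add_distrib, Finset.sum_const, Finset.card_univ, nsmul_eq_mul, hcard2, one_mul,
      Finset.sum_comm]
    congr 1
    refine Finset.sum_congr rfl fun D _ => ?_
    have hy : A D * (G0 ^ α D)⁻¹ ∈ Hm := by
      rw [hmem, map_mul, map_inv, map_pow, hG0, hπA, mul_inv_cancel, one_pow]
    have h2 := htrans (fun y => ((((G0 ^ (c + α D) * y : (ZMod n)ˣ) : ZMod n).val : ℕ) : ZMod 2))
      _ hy
    change _ = ∑ x : Hm, ((((G0 ^ (c + α D) * (x : (ZMod n)ˣ) : (ZMod n)ˣ) : ZMod n).val : ℕ) :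
      ZMod 2)
    rw [← h2]
    refine Finset.sum_congr rfl fun x _ => ?_
    congr 3
    rw [pow_add]
    have h3 : G0 ^ α D * (A D * (G0 ^ α D)⁻¹ * (x : (ZMod n)ˣ)) = (x : (ZMod n)ˣ) * A D := by
      rw [mul_comm (A D), mul_assoc, mul_inv_cancel_left, mul_comm]
    rw [mul_assoc (G0 ^ c) (G0 ^ α D), h3, mul_assoc]
  have hH2 : ((Fintype.card H : ℕ) : ZMod 2) = 1 := (ZMod.natCast_eq_one_iff_odd).2 hH
  refine binom_key' hφ α (1 + ε) (fun c => ?_)
  have h2 : ∑ u : H, ∑ x : Hm, N (ρ u * (G0 ^ c * (x : (ZMod n)ˣ))) =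
      ∑ x : Hm, N (G0 ^ c * (x : (ZMod n)ˣ)) := by
    have h3 : ∀ u : H, ∑ x : Hm, N (ρ u * (G0 ^ c * (x : (ZMod n)ˣ))) =
        ∑ x : Hm, N (G0 ^ c * (x : (ZMod n)ˣ)) := by
      intro u
      rw [← htrans (fun y => N (G0 ^ c * y)) (ρ u) ((hmem _).2 (hρ u))]
      refine Finset.sum_congr rfl fun x _ => ?_
      rw [mul_left_comm]
    rw [Finset.sum_congr rfl fun u _ => h3 u, Finset.sum_const, Finset.card_univ, nsmul_eq_mul,
      hH2, one_mul]
  have h3 : ∑ x : Hm, N (G0 ^ c * (x : (ZMod n)ˣ)) = 1 := by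
    rw [← h2, Finset.sum_comm, Finset.sum_congr rfl fun x _ => hN _, Finset.sum_const,
      Finset.card_univ, nsmul_eq_mul, mul_one, hcard2]
  rw [hsumN] at h3
  have h4 : ∀ x y : ZMod 2, x + y = 1 → y = 1 + x := by decide
  exact h4 _ _ h3

/-- an element of odd order -/
theorem pow_t_eq_one {s t : ℕ} (hst : r - 1 = 2 ^ (s + 1) * t) {x : (ZMod r)ˣ} {m : ℕ}
    (hm : Odd m) (hx : x ^ m = 1) : x ^ t = 1 := by
  have h3 : x ^ (2 ^ (s + 1) * t) = 1 := by
    rw [← hst]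
    exact ZMod.units_pow_card_sub_one_eq_one r _
  have h4 : orderOf x ∣ 2 ^ (s + 1) * t := orderOf_dvd_of_pow_eq_one h3
  have h5 : Nat.Coprime (orderOf x) (2 ^ (s + 1)) := by
    refine Nat.Coprime.pow_right _ ?_
    rw [Nat.coprime_two_right]
    exact hm.of_dvd_nat (orderOf_dvd_of_pow_eq_one hx)
  exact orderOf_dvd_iff_pow_eq_one.1 (h5.dvd_of_dvd_mul_left h4)

/-- halves of residues -/
theorem half_val {n' : ℕ} [NeZero n'] (hodd : Odd n') {n : ℕ} (hn : n = 2 * n') [NeZero n]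
    (hd : n' ∣ n) (h : (ZMod n)ˣ) (a : ℤ) {z : ZMod n'}
    (hz : 2 * z = ZMod.castHom hd (ZMod n') (h : ZMod n) * (a : ZMod n')) :
    (((h : ZMod n) * (a : ZMod n)).val : ℤ) + (if Odd a then 2 * (n' : ℤ) *
        ((((ZMod.castHom hd (ZMod n') (h : ZMod n) * (a : ZMod n')).val % 2 : ℕ)) : ℤ) else 0) =
      2 * z.val + (if Odd a then (n' : ℤ) else 0) := by
  set x := ((h : ZMod n) * (a : ZMod n)).val with hx
  set w := (ZMod.castHom hd (ZMod n') (h : ZMod n) * (a : ZMod n')).val with hw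
  have hxlt : x < 2 * n' := by
    rw [← hn]
    exact ZMod.val_lt _
  have hwlt : w < n' := ZMod.val_lt _
  have hzlt : z.val < n' := ZMod.val_lt _
  have h1 : x % n' = w := by
    rw [← ZMod.val_natCast, hx, hw]
    congr 1
    have h2 : ((((h : ZMod n) * (a : ZMod n)).val : ℕ) : ZMod n) = (h : ZMod n) * (a : ZMod n) :=
      ZMod.natCast_zmod_val _
    have h3 := congrArg (ZMod.castHom hd (ZMod n')) h2
    rw [map_natCast, map_mul, map_intCast] at h3
    exact h3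
  have h2 : (2 * z.val) % n' = w := by
    rw [← ZMod.val_natCast, hw, ← hz]
    push_cast
    rw [ZMod.natCast_zmod_val]
  have h3 : x % 2 = 1 ↔ Odd a := by
    have h2n : 2 ∣ n := ⟨n', hn⟩
    have h4 : ((((h : ZMod n) * (a : ZMod n)).val : ℕ) : ZMod n) = (h : ZMod n) * (a : ZMod n) :=
      ZMod.natCast_zmod_val _
    have h5 := congrArg (ZMod.castHom h2n (ZMod 2)) h4
    rw [map_natCast, map_mul, map_intCast] at h5
    have h6 : ZMod.castHom h2n (ZMod 2) (h : ZMod n) = 1 := by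
      have h7 : IsUnit (ZMod.castHom h2n (ZMod 2) (h : ZMod n)) := h.isUnit.map _
      have h8 : ∀ y : ZMod 2, IsUnit y → y = 1 := by decide
      exact h8 _ h7
    rw [h6, one_mul] at h5
    rw [← Nat.odd_iff, ← ZMod.natCast_eq_one_iff_odd, hx, h5, ZMod.intCast_eq_one_iff_odd]
  obtain ⟨j, hj⟩ := hodd
  have h4 : x = w ∨ x = w + n' := by
    have h5 := Nat.div_add_mod x n'
    have h6 : x / n' < 2 := by
      rw [Nat.div_lt_iff_lt_mul (by omega)]
      exact hxlt
    rw [h1] at h5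
    interval_cases h7 : x / n'
    · left; omega
    · right; omega
  have h5 : 2 * z.val = w ∨ 2 * z.val = w + n' := by
    have h5 := Nat.div_add_mod (2 * z.val) n'
    have h6 : 2 * z.val / n' < 2 := by
      rw [Nat.div_lt_iff_lt_mul (by omega)]
      omega
    rw [h2] at h5
    interval_cases h7 : 2 * z.val / n'
    · left; omega
    · right; omega
  by_cases ha : Odd a
  · rw [if_pos ha, if_pos ha]
    have h6 := h3.2 ha
    have h7 : w % 2 = 0 ∨ w % 2 = 1 := Nat.mod_two_eq_zero_or_one w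
    rcases h7 with h7 | h7
    · rw [h7]
      push_cast
      omega
    · rw [h7]
      push_cast
      omega
  · rw [if_neg ha, if_neg ha]
    have h6 : ¬ x % 2 = 1 := fun h => ha (h3.1 h)
    omega

end core

end Pool.Agent.Helper79.QC
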