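import Pool.Agent.Helper79.QC.Binom2

/-!
# The 2-adic criterion for exponents `2 r ^ k`
-/

set_option autoImplicit false

namespace Pool.Agent.Helper79.QC

open Finset

section two

variable {r : ℕ} [hr : Fact r.Prime]

open Classical in
theorem exists_even_two_aux {k s t n' n : ℕ} (hn' : n' = r ^ k) (hn : n = 2 * n') (hk : 0 < k)
    (hst : r - 1 = 2 ^ (s + 1) * t) (ht : Odd t) {ι : Type*} [Fintype ι] (a : ι → ℤ)
    (hsum : ∑ D, a D = 0) (g : (ZMod r)ˣ) (hg : orderOf g = r - 1) (α : ι → ℕ)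
    (hα : ∀ D, ((a D : ℤ) : ZMod r) = (g : ZMod r) ^ α D) (β : ℕ) (hβ : (2 : ZMod r) = g ^ β)
    (hcrit : (∃ j < 2 ^ s, Odd (∑ D, ((α D).choose j +
        if Odd (a D) then (α D + β).choose j else 0))) ∨
      Even (∑ D, ((α D).choose (2 ^ s) + if Odd (a D) then (α D + β).choose (2 ^ s) else 0) +
        (univ.filter fun D => Odd (a D)).card / 2))
    (H : Subgroup (ZMod n)ˣ) (hH : Odd (Nat.card H)) :
    ∃ h : (ZMod n)ˣ, Even (∑ᶠ u : H, total n a (u * h) / n) := by
  have hrp : r.Prime := hr.out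
  have : NeZero n' := ⟨by rw [hn']; exact pow_ne_zero _ hrp.ne_zero⟩
  have h1 : 1 < n' := by rw [hn']; exact Nat.one_lt_pow hk.ne' hrp.one_lt
  have : NeZero n := ⟨by omega⟩
  have hr2 : r ≠ 2 := by
    rintro rfl
    have h2 : 0 < 2 ^ s := by positivity
    have h3 := ht.pos
    have h4 : 1 ≤ 2 ^ s * t := Nat.mul_pos h2 h3
    rw [pow_succ] at hst
    have h5 : 2 ^ s * 2 * t = 2 * (2 ^ s * t) := by ring
    omega
  have hrodd : Odd r := hrp.odd_of_ne_two hr2
  have hodd : Odd n' := by rw [hn']; exact hrodd.pow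
  have hrn' : r ∣ n' := hn' ▸ dvd_pow_self r hk.ne'
  have hd : n' ∣ n := ⟨2, by rw [hn, mul_comm]⟩
  have hn2 : ((n' : ℕ) : ZMod 2) = 1 := (ZMod.natCast_eq_one_iff_odd).2 hodd
  -- the units
  have hunit : ∀ D, IsUnit ((a D : ℤ) : ZMod n') := by
    intro D
    refine isUnit_of_cast hn' hrn' ?_
    rw [map_intCast, hα]
    exact pow_ne_zero _ g.ne_zero
  choose A hA using hunit
  have hπA : ∀ D, ZMod.unitsMap hrn' (A D) = g ^ α D := by
    intro D
    apply Units.ext
    change ZMod.castHom hrn' (ZMod r) (A D : ZMod n') = _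
    rw [hA, map_intCast, hα, Units.val_pow_eq_pow_val]
  have hunit2 : IsUnit (2 : ZMod n') := by
    refine isUnit_of_cast hn' hrn' ?_
    rw [map_ofNat, hβ]
    exact pow_ne_zero _ g.ne_zero
  obtain ⟨T, hT⟩ := hunit2
  have hπT : ZMod.unitsMap hrn' T = g ^ β := by
    apply Units.ext
    change ZMod.castHom hrn' (ZMod r) (T : ZMod n') = _
    rw [hT, map_ofNat, hβ, Units.val_pow_eq_pow_val]
  set K := (univ.filter fun D => Odd (a D)).card with hK
  have hsub : ∀ {M : Type} [AddCommMonoid M] (f : ι → M),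
      ∑ D : {D // Odd (a D)}, f D = ∑ D, if Odd (a D) then f D else 0 := by
    intro M _ f
    rw [← Finset.sum_filter]
    exact (Finset.sum_subtype _ (by simp) f).symm
  by_contra hcon
  push Not at hcon
  have : Fintype H := Fintype.ofFinite H
  have hbad : ∀ h : (ZMod n)ˣ, ∑ u : H, ((total n a ((u : (ZMod n)ˣ) * h) / n : ℕ) : ZMod 2) = 1 := by
    intro h
    have h2 : ¬ Even (∑ᶠ u : H, total n a ((u : (ZMod n)ˣ) * h) / n) := hcon h
    rw [Nat.not_even_iff_odd, finsum_eq_sum_of_fintype] at h2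
    rw [← Nat.cast_sum]
    exact (ZMod.natCast_eq_one_iff_odd).2 h2
  -- the formula for `N`
  have hform : ∀ (h : (ZMod n)ˣ) (h' : (ZMod n')ˣ), ZMod.unitsMap hd h = T * h' →
      ((total n a h / n : ℕ) : ZMod 2) = ((K / 2 : ℕ) : ZMod 2) +
        (∑ D, ((((h' * A D : (ZMod n')ˣ) : ZMod n').val : ℕ) : ZMod 2) +
          ∑ D : {D // Odd (a D)}, ((((h' * (T * A D) : (ZMod n')ˣ) : ZMod n').val : ℕ) :
            ZMod 2)) := by
    intro h h' hh
    have hval : ZMod.castHom hd (ZMod n') (h : ZMod n) = (T : ZMod n') * h' := by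
      have h2 := congrArg (fun u : (ZMod n')ˣ => (u : ZMod n')) hh
      simpa [ZMod.unitsMap_def] using h2
    have h2 : ∀ D, (((h : ZMod n) * (a D : ZMod n)).val : ℤ) + (if Odd (a D) then 2 * (n' : ℤ) *
        ((((ZMod.castHom hd (ZMod n') (h : ZMod n) * (a D : ZMod n')).val % 2 : ℕ)) : ℤ) else 0) =
      2 * (((h' * A D : (ZMod n')ˣ) : ZMod n').val : ℕ) + (if Odd (a D) then (n' : ℤ) else 0) := by
      intro D
      refine half_val hodd hn hd h (a D) (z := ((h' * A D : (ZMod n')ˣ) : ZMod n')) ?_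
      rw [hval, Units.val_mul, hA, hT]
      ring
    have h3 := Finset.sum_congr (rfl : (univ : Finset ι) = univ) fun D _ => h2 D
    rw [Finset.sum_add_distrib, Finset.sum_add_distrib] at h3
    have h4 : ∑ D, (((h : ZMod n) * (a D : ZMod n)).val : ℤ) = 2 * (n' * (total n a h / n : ℕ)) := by
      have h5 : n * (total n a h / n) = total n a h := Nat.mul_div_cancel' (dvd_total hsum h)
      have h6 : ((total n a h : ℕ) : ℤ) = ∑ D, (((h : ZMod n) * (a D : ZMod n)).val : ℤ) := by
        rw [total]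
        push_cast
        rfl
      have h7 : ((total n a h : ℕ) : ℤ) = (n : ℤ) * (total n a h / n : ℕ) := by
        exact_mod_cast h5.symm
      have h8 : (n : ℤ) = 2 * n' := by exact_mod_cast hn
      rw [← h6, h7]
      linear_combination ((total n a h / n : ℕ) : ℤ) * h8
    have h5 : ∑ D, (if Odd (a D) then
        2 * (n' : ℤ) * ((ZMod.castHom hd (ZMod n') (h : ZMod n) * (a D : ZMod n')).val % 2 : ℕ)
          else 0) = 2 * (n' * ∑ D, (if Odd (a D) then
          (((ZMod.castHom hd (ZMod n') (h : ZMod n) * (a D : ZMod n')).val % 2 : ℕ) : ℤ)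
            else 0)) := by
      rw [Finset.mul_sum, Finset.mul_sum]
      refine Finset.sum_congr rfl fun D _ => ?_
      split_ifs
      · ring
      · ring
    have h6 : ∑ D, (if Odd (a D) then (n' : ℤ) else 0) = K * n' := by
      rw [← Finset.sum_filter, Finset.sum_const, nsmul_eq_mul]
    rw [h4, h5, h6, ← Finset.mul_sum] at h3
    have hKe : Even K := by
      have h7 : Even ((K : ℤ) * n') := by
        refine ⟨(n' * (total n a h / n : ℕ)) + (n' * ∑ D, (if Odd (a D) then
          (((ZMod.castHom hd (ZMod n') (h : ZMod n) * (a D : ZMod n')).val % 2 : ℕ) : ℤ)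
            else 0)) - ∑ D, ((((h' * A D : (ZMod n')ˣ) : ZMod n').val : ℕ) : ℤ), ?_⟩
        linear_combination -h3
      rw [Int.even_mul] at h7
      rcases h7 with h7 | h7
      · exact_mod_cast h7
      · exfalso
        have h8 : Even n' := by exact_mod_cast h7
        exact (Nat.not_even_iff_odd.2 hodd) h8
    obtain ⟨K', hK'⟩ := hKe
    have hK2 : K / 2 = K' := by omega
    rw [hK2]
    have h7 : (n' : ℤ) * (total n a h / n : ℕ) + (n' * ∑ D, (if Odd (a D) then
          (((ZMod.castHom hd (ZMod n') (h : ZMod n) * (a D : ZMod n')).val % 2 : ℕ) : ℤ)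
            else 0)) = ∑ D, ((((h' * A D : (ZMod n')ˣ) : ZMod n').val : ℕ) : ℤ) + K' * n' := by
      have h8 : (K : ℤ) = K' + K' := by exact_mod_cast hK'
      rw [h8] at h3
      linarith
    have h8 := congrArg (fun x : ℤ => (x : ZMod 2)) h7
    push_cast at h8
    have hn2' : ((n' : ℕ) : ZMod 2) = 1 := hn2
    rw [hn2', one_mul, one_mul, mul_one] at h8
    have h9 : ∀ D, ((if Odd (a D) then
        (((ZMod.castHom hd (ZMod n') (h : ZMod n) * (a D : ZMod n')).val % 2 : ℕ) : ℤ)
          else 0 : ℤ) : ZMod 2) =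
        if Odd (a D) then ((((h' * (T * A D) : (ZMod n')ˣ) : ZMod n').val : ℕ) : ZMod 2)
          else 0 := by
      intro D
      split_ifs
      · have h10 : ZMod.castHom hd (ZMod n') (h : ZMod n) * (a D : ZMod n') =
            ((h' * (T * A D) : (ZMod n')ˣ) : ZMod n') := by
          rw [hval, Units.val_mul, Units.val_mul, hA]
          ring
        rw [h10, Int.cast_natCast, ZMod.natCast_mod]
      · rw [Int.cast_zero]
    rw [hsub (fun D => ((((h' * (T * A D) : (ZMod n')ˣ) : ZMod n').val : ℕ) : ZMod 2)),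
      ← Finset.sum_congr rfl fun D _ => h9 D]
    have h11 : ∀ x y z w : ZMod 2, x + y = z + w → x = w + (z + y) := by decide
    refine h11 _ _ _ _ ?_
    push_cast
    exact h8
  -- the core
  have hcore := binom_core (ι := ι ⊕ {D // Odd (a D)}) hn' hrn' h1 hst ht g hg
    (Sum.elim A fun D => T * A D) (Sum.elim α fun D => α D + β) (by
      rintro (D | D)
      · exact hπA D
      · change ZMod.unitsMap hrn' (T * A D) = g ^ (α D + β)
        rw [map_mul, hπT, hπA, ← pow_add, add_comm]) ((K / 2 : ℕ) : ZMod 2) (H := H)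
    (by rwa [Nat.card_eq_fintype_card] at hH) (fun u => ZMod.unitsMap hd (u : (ZMod n)ˣ))
    (fun u => by
      refine pow_t_eq_one hst hH ?_
      have h2 : (u : (ZMod n)ˣ) ^ Nat.card H = 1 := by
        have h4 : u ^ Nat.card H = 1 := pow_card_eq_one'
        have h5 := congrArg Subtype.val h4
        rwa [Subgroup.coe_pow, Subgroup.coe_one] at h5
      rw [← map_pow, ← map_pow, h2, map_one, map_one])
    (fun h' => by
      obtain ⟨h, hh⟩ := ZMod.unitsMap_surjective hd (T * h')
      rw [← hbad h]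
      refine Finset.sum_congr rfl fun u _ => ?_
      rw [hform ((u : (ZMod n)ˣ) * h) (ZMod.unitsMap hd (u : (ZMod n)ˣ) * h') (by
        rw [map_mul, hh, mul_left_comm]), Fintype.sum_sum_type]
      rfl)
  obtain ⟨hc1, hc2⟩ := hcore
  have hsumj : ∀ j, ∑ D : ι ⊕ {D // Odd (a D)},
      (Sum.elim α (fun D : {D // Odd (a D)} => α D + β) D).choose j =
      ∑ D, ((α D).choose j + if Odd (a D) then (α D + β).choose j else 0) := by
    intro j
    rw [Fintype.sum_sum_type, Finset.sum_add_distrib, ← hsub fun D => (α D + β).choose j]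
    rfl
  rcases hcrit with ⟨j, hj, hjo⟩ | he
  · have h2 := hc1 j hj
    rw [hsumj] at h2
    exact (Nat.not_even_iff_odd.2 hjo) h2
  · rw [hsumj] at hc2
    have h2 := (ZMod.natCast_eq_zero_iff _ 2).2 he.two_dvd
    rw [Nat.cast_add, hc2] at h2
    have h3 : ∀ x : ZMod 2, 1 + x + x ≠ 0 := by decide
    exact h3 _ h2

open Classical in
/-- **The 2-adic criterion for the exponents `2 r ^ k`.** -/
theorem exists_even_two {k s t : ℕ} (hk : 0 < k)
    (hst : r - 1 = 2 ^ (s + 1) * t) (ht : Odd t) {ι : Type*} [Fintype ι] (a : ι → ℤ)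
    (hsum : ∑ D, a D = 0) (g : (ZMod r)ˣ) (hg : orderOf g = r - 1) (α : ι → ℕ)
    (hα : ∀ D, ((a D : ℤ) : ZMod r) = (g : ZMod r) ^ α D) (β : ℕ) (hβ : (2 : ZMod r) = g ^ β)
    (hcrit : (∃ j < 2 ^ s, Odd (∑ D, ((α D).choose j +
        if Odd (a D) then (α D + β).choose j else 0))) ∨
      Even (∑ D, ((α D).choose (2 ^ s) + if Odd (a D) then (α D + β).choose (2 ^ s) else 0) +
        (univ.filter fun D => Odd (a D)).card / 2))
    (H : Subgroup (ZMod (2 * r ^ k))ˣ) (hH : Odd (Nat.card H)) :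
    ∃ h : (ZMod (2 * r ^ k))ˣ, Even (∑ᶠ u : H, total (2 * r ^ k) a (u * h) / (2 * r ^ k)) :=
  exists_even_two_aux rfl rfl hk hst ht a hsum g hg α hα β hβ hcrit H hH

end two

end Pool.Agent.Helper79.QC
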