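import Pool.Agent.Helper73.QC.Good
import Pool.Agent.Helper79.QC.Binom3

/-!
# The criterion modulo `r` for the exponents `2 r ^ k`
-/

set_option autoImplicit false

namespace Pool.Agent.Helper79.QC

open Pool.Agent.Helper73.QC Finset

open Classical in
/-- The condition on the indices `α` of the ten exponents modulo a prime `r`, `β` the index of
two, for `r - 1 = 2 ^ (s + 1) t`, `t` odd. -/
def GoodTwo (r : ℕ) (v : Fin 5 → ℤ) : Prop :=
  ∃ (s t : ℕ) (g : (ZMod r)ˣ) (α : Fin 10 → ℕ) (β : ℕ), r - 1 = 2 ^ (s + 1) * t ∧ Odd t ∧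
    orderOf g = r - 1 ∧ (∀ i, ((residues v i : ℤ) : ZMod r) = (g : ZMod r) ^ α i) ∧
    (2 : ZMod r) = (g : ZMod r) ^ β ∧
    ((∃ j < 2 ^ s, Odd (∑ i, ((α i).choose j +
        if Odd (residues v i) then (α i + β).choose j else 0))) ∨
      Even (∑ i, ((α i).choose (2 ^ s) +
        if Odd (residues v i) then (α i + β).choose (2 ^ s) else 0) +
        (univ.filter fun i => Odd (residues v i)).card / 2))

/-- The exponents are `c` times integers satisfying the condition modulo `r`, `n = 2 c r ^ k`, and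
one of the ten exponents is even. -/
def GoodModuloTwo {n : ℕ} (a : Fin 5 → ZMod n) : Prop :=
  ∃ (r k c : ℕ) (v : Fin 5 → ℤ), r.Prime ∧ r ≠ 2 ∧ 0 < k ∧ n = c * (2 * r ^ k) ∧
    (∀ i, a i = ((c * v i : ℤ) : ZMod n)) ∧ (∃ i, Even (residues v i)) ∧ GoodTwo r v

theorem goodTwo_imp {p n : ℕ} [hp : Fact p.Prime] (hpn : p.Coprime n) (hn0 : n ≠ 0)
    {a : Fin 5 → ZMod n} (h : GoodModuloTwo a) : SelfDual p a ∨ OddPlace p a := by
  obtain ⟨r, k, c, v, hr, hr2, hk, hn, ha, ⟨i0, hi0⟩, s, t, g, α, β, hst, ht, hg, hα, hβ, hcrit⟩ :=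
    h
  have : Fact r.Prime := ⟨hr⟩
  have : NeZero n := ⟨hn0⟩
  have : NeZero (r ^ k) := ⟨pow_ne_zero k hr.ne_zero⟩
  have : NeZero (2 * r ^ k) := ⟨mul_ne_zero two_ne_zero (pow_ne_zero k hr.ne_zero)⟩
  have hd2 : 2 * r ^ k ∣ n := Dvd.intro_left c hn.symm
  have hcop2 : p.Coprime (2 * r ^ k) := hpn.coprime_dvd_right hd2
  have hcop : p.Coprime (r ^ k) := hcop2.coprime_dvd_right (Dvd.intro_left 2 rfl)
  have hpodd : Odd p := by
    rw [← Nat.coprime_two_right]
    exact hcop2.coprime_dvd_right (Dvd.intro _ rfl)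
  have trans : ∀ {x y : ℤ}, (x : ZMod (2 * r ^ k)) = (y : ZMod (2 * r ^ k)) →
      ∀ w : ℤ, ((c * (x * w) : ℤ) : ZMod n) = ((c * (y * w) : ℤ) : ZMod n) := by
    intro x y hxy w
    have h1 : ((2 * r ^ k : ℕ) : ℤ) ∣ x - y := by
      rw [← ZMod.intCast_zmod_eq_zero_iff_dvd, Int.cast_sub, hxy, sub_self]
    rw [← sub_eq_zero, ← Int.cast_sub, ZMod.intCast_zmod_eq_zero_iff_dvd, hn]
    obtain ⟨z, hz⟩ := h1
    refine ⟨z * w, ?_⟩
    have : (c : ℤ) * (x * w) - c * (y * w) = c * w * (x - y) := by ring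
    rw [this, hz]
    push_cast
    ring
  have two_dvd : ∀ {y : ℕ}, Even y → r ^ k ∣ y → 2 * r ^ k ∣ y := by
    intro y hy hy'
    refine Nat.Coprime.mul_dvd_of_dvd_of_dvd ?_ hy.two_dvd hy'
    rw [Nat.coprime_two_left]
    exact (hr.odd_of_ne_two hr2).pow
  by_cases hj : ∃ j, r ∣ p ^ j + 1
  · left
    obtain ⟨j, hj⟩ := hj
    have hd := dvd_pow_add_one' (hr.odd_of_ne_two hr2) hj k
    rw [← pow_mul] at hd
    have hd' : 2 * r ^ k ∣ p ^ (j * r ^ k) + 1 := two_dvd (hpodd.pow.add_one) hd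
    have hf : (((p : ℤ) ^ (j * r ^ k) : ℤ) : ZMod (2 * r ^ k)) = ((-1 : ℤ) : ZMod (2 * r ^ k)) := by
      have h1 : ((p ^ (j * r ^ k) + 1 : ℕ) : ZMod (2 * r ^ k)) = 0 :=
        (ZMod.natCast_eq_zero_iff _ _).2 hd'
      push_cast at h1 ⊢
      linear_combination h1
    have hkill : ∀ w : ℤ, 2 * (r : ZMod n) ^ k * ((c * w : ℤ) : ZMod n) = 0 := by
      intro w
      have h1 : ((c * (2 * r ^ k) : ℕ) : ZMod n) = 0 := by
        rw [← hn]
        exact ZMod.natCast_self n
      push_cast at h1 ⊢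
      linear_combination (w : ZMod n) * h1
    refine ⟨j * r ^ k, r, k, hr, hr2, ?_, ?_, i0, ?_⟩
    · intro i
      have h1 := trans hf (v i)
      rw [ha i]
      push_cast at h1 ⊢
      linear_combination h1
    · intro i
      rw [ha i, hkill]
    · have h1 : a = fun j => (c : ZMod n) * ((v j : ℤ) : ZMod n) := by
        funext j
        rw [ha j]
        push_cast
        rfl
      obtain ⟨w, hw⟩ := hi0
      rw [h1, residues_mul, residues_cast, hw]
      have h2 := hkill w
      push_cast at h2 ⊢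
      linear_combination h2
  · right
    let P : (ZMod (2 * r ^ k))ˣ := ZMod.unitOfCoprime p hcop2
    have hP : (P : ZMod (2 * r ^ k)) = p := ZMod.coe_unitOfCoprime p hcop2
    set m := orderOf P with hm
    have hm0 : 0 < m := orderOf_pos P
    have hodd : Odd m := by
      rw [← Nat.not_even_iff_odd]
      rintro ⟨q, hq⟩
      apply hj
      refine ⟨q, ?_⟩
      have h1 : P ^ q ≠ 1 := by
        intro h1
        have := Nat.le_of_dvd (by omega) (orderOf_dvd_of_pow_eq_one h1)
        omega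
      have h2 : P ^ (q + q) = 1 := by rw [← hq, hm, pow_orderOf_eq_one]
      have hp1 : 1 ≤ p ^ q := Nat.one_le_pow _ _ hp.out.pos
      have h3 : r ^ k ∣ (p ^ q - 1) * (p ^ q + 1) := by
        have h4 := congrArg Units.val h2
        rw [Units.val_pow_eq_pow_val, hP, Units.val_one, pow_add] at h4
        have h5 : 2 * r ^ k ∣ (p ^ q - 1) * (p ^ q + 1) := by
          rw [← ZMod.natCast_eq_zero_iff, Nat.cast_mul, Nat.cast_sub hp1]
          push_cast at h4 ⊢
          linear_combination h4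
        exact (Dvd.intro_left 2 rfl).trans h5
      by_contra hnd
      have h4 : (r ^ k).Coprime (p ^ q + 1) :=
        ((Nat.Prime.coprime_iff_not_dvd hr).2 hnd).pow_left k
      have h5 := h4.dvd_of_dvd_mul_right h3
      have h6 : 2 * r ^ k ∣ p ^ q - 1 := by
        refine two_dvd ?_ h5
        obtain ⟨y, hy⟩ := hpodd.pow (n := q)
        exact ⟨y, by omega⟩
      apply h1
      rw [Units.ext_iff, Units.val_pow_eq_pow_val, hP, Units.val_one]
      rw [← ZMod.natCast_eq_zero_iff, Nat.cast_sub hp1] at h6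
      push_cast at h6 ⊢
      linear_combination h6
    obtain ⟨h0, hh⟩ := exists_even_two hk hst ht (residues v) (sum_residues v) g hg α hα β hβ hcrit
      (Subgroup.zpowers P) (by rw [Nat.card_zpowers]; exact hodd)
    rw [finsum_zpowers P (fun x => total (2 * r ^ k) (residues v) (x * h0) / (2 * r ^ k))] at hh
    obtain ⟨h, hh0⟩ := ZMod.unitsMap_surjective hd2 h0
    refine ⟨m, hm0, ?_, h, ?_⟩
    · intro i
      have h1 : (((p : ℤ) ^ m : ℤ) : ZMod (2 * r ^ k)) = ((1 : ℤ) : ZMod (2 * r ^ k)) := by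
        have h4 := congrArg Units.val (pow_orderOf_eq_one P)
        rw [Units.val_pow_eq_pow_val, hP, Units.val_one] at h4
        push_cast at h4 ⊢
        exact h4
      have h2 := trans h1 (v i)
      rw [ha i]
      push_cast at h2 ⊢
      linear_combination h2
    · refine hodd.add_even ?_
      have h1 : ∀ j, (height fun i => (h : ZMod n) * (p : ZMod n) ^ j * a i) =
          total (2 * r ^ k) (residues v) (P ^ j * h0) / (2 * r ^ k) := by
        intro j
        have h2 : (h : ZMod n) * (p : ZMod n) ^ j =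
            (((h : ZMod n).val * p ^ j : ℕ) : ZMod n) := by
          push_cast
          rw [ZMod.natCast_zmod_val]
        rw [h2, height_smul hn hn0 ha, total]
        congr 1
        refine sum_congr rfl fun i _ => ?_
        congr 2
        have h3 : (((h : ZMod n).val : ℕ) : ZMod (2 * r ^ k)) = h0 := by
          rw [← hh0]
          have h4 : ((h : ZMod n).val : ZMod n) = h := ZMod.natCast_zmod_val _
          have h5 := congrArg (ZMod.castHom hd2 (ZMod (2 * r ^ k))) h4
          rw [map_natCast] at h5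
          rw [h5]
          rfl
        rw [Nat.cast_mul, Nat.cast_pow, h3, Units.val_mul, Units.val_pow_eq_pow_val, hP]
        exact mul_comm _ _
      rw [sum_congr rfl fun j _ => h1 j]
      exact hh

end Pool.Agent.Helper79.QC
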